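import Pool.Agent.MP_6f6f6b_co.B.Plan

set_option autoImplicit false
set_option linter.unusedVariables false
set_option linter.unusedSectionVars false

open Finset
open scoped Classical

namespace Pool.Agent.MP_6f6f6b_co.B

variable {α β Λ : Type} [Fintype α] [Fintype β] {T : RTree α} {D : LD T Λ} {H : Host β}

/-- The state of the level by level embedding. -/
structure Lev (P : Parts D H) (d : ℕ) (ψ : α → β) : Prop where
  onS : ∀ s ∈ D.S, ψ s = P.φ s
  zone : ∀ x ∈ D.U, D.rk (D.lab x) < d → D.role x ≤ 1 → P.o (ψ x) = Sum.inl (D.lab x)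
  edge : ∀ x ∈ D.U, D.rk (D.lab x) < d → D.role x ≤ 1 → T.p x ∉ D.G →
    H.R (T.dir x) (ψ (T.p x)) (ψ x)
  inj : ∀ x ∈ D.U, ∀ y ∈ D.U, D.rk (D.lab x) < d → D.role x ≤ 1 → D.lab x = D.lab y →
    ψ x = ψ y → x = y
  onY : ∀ y ∈ D.U, D.rk (D.lab y) < d → D.role y = 3 → ψ y = P.σ (ψ (T.p (T.p y)))

theorem inner_count (P : Parts D H) {d : ℕ} {ψ : α → β} (L : Lev P d ψ) {x0 : α} (hx : x0 ∈ D.U)
    (hp : T.p x0 ∈ D.U) (hd : D.rk (D.lab (T.p x0)) < d)
    (hrole : D.role (T.p x0) = 0 ∨ D.role (T.p x0) = 3) (w : β) :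
    (((D.C x0).filter fun x => ¬ H.R (T.dir x) (ψ (T.p x)) w).card : ℝ) ≤ 0.506 * (D.C x0).card := by
  rcases hrole with h0 | h3
  · have := P.pb x0 hx hp h0 w (!T.dir x0)
    rw [D.C_par hx hp] at this
    refine le_trans ?_ this
    rw [Nat.cast_le]
    refine card_le_card_of_injOn (fun x => ψ (T.p x)) ?_ ?_
    · intro x hx'
      obtain ⟨h1, h2⟩ := mem_filter.1 (mem_coe.1 hx')
      obtain ⟨h3, h4⟩ := D.mem_C.1 h1
      obtain ⟨h5, h6⟩ := D.l_in x0 hx x h3 h4.symm hp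
      simp only [coe_inter, Set.mem_inter_iff, mem_coe, mem_fib, H.mem_non']
      refine ⟨?_, ?_⟩
      · rw [h6]
        exact L.zone _ h5 (h6 ▸ hd) (by rw [← D.l_role _ hp _ h5 h6]; omega)
      · rw [D.l_dir x0 hx x h3 h4.symm]; exact h2
    · intro x hx' y hy' h
      obtain ⟨h3, h4⟩ := D.mem_C.1 (mem_filter.1 (mem_coe.1 hx')).1
      obtain ⟨h3', h4'⟩ := D.mem_C.1 (mem_filter.1 (mem_coe.1 hy')).1
      obtain ⟨h5, h6⟩ := D.l_in x0 hx x h3 h4.symm hp
      obtain ⟨h5', h6'⟩ := D.l_in x0 hx y h3' h4'.symm hp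
      refine D.l_inj x h3 y h3' (h4.trans h4'.symm) h5 ?_
      exact L.inj _ h5 _ h5' (h6 ▸ hd) (by rw [← D.l_role _ hp _ h5 h6]; omega)
        (h6.symm.trans h6') h
  · obtain ⟨q1, q2, q3⟩ := D.y_gp hp h3
    have := P.pb' _ q2 q3 w (!T.dir x0)
    rw [D.C_par q1 q2, D.C_par hp q1, D.C_par hx hp] at this
    refine le_trans ?_ this
    rw [Nat.cast_le]
    have r1 := D.l_rk _ hp q1
    have r2 := D.l_rk _ q1 q2
    have key : ∀ x ∈ D.C x0, x ∈ D.U ∧ T.p x ∈ D.U ∧ T.p (T.p x) ∈ D.U ∧ T.p (T.p (T.p x)) ∈ D.U ∧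
        D.lab x0 = D.lab x ∧ D.lab (T.p x0) = D.lab (T.p x) ∧
        D.lab (T.p (T.p x0)) = D.lab (T.p (T.p x)) ∧
        D.lab (T.p (T.p (T.p x0))) = D.lab (T.p (T.p (T.p x))) := by
      intro x hx'
      obtain ⟨h3, h4⟩ := D.mem_C.1 hx'
      obtain ⟨h5, h6⟩ := D.l_in x0 hx x h3 h4.symm hp
      obtain ⟨h7, h8⟩ := D.l_in _ hp _ h5 h6 q1
      obtain ⟨h9, h10⟩ := D.l_in _ q1 _ h7 h8 q2
      exact ⟨h3, h5, h7, h9, h4.symm, h6, h8, h10⟩
    refine card_le_card_of_injOn (fun x => ψ (T.p (T.p (T.p x)))) ?_ ?_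
    · intro x hx'
      obtain ⟨h1, h2⟩ := mem_filter.1 (mem_coe.1 hx')
      obtain ⟨k1, k2, k3, k4, k5, k6, k7, k8⟩ := key x h1
      simp only [coe_filter, Set.mem_ofPred_eq, mem_fib, H.mem_non']
      refine ⟨?_, ?_⟩
      · rw [k8]
        exact L.zone _ k4 (by rw [← k8]; omega) (by rw [← D.l_role _ q2 _ k4 k8]; omega)
      · rw [← L.onY _ k2 (k6 ▸ hd) (by rw [← D.l_role _ hp _ k2 k6]; exact h3),
          D.l_dir x0 hx x k1 k5]
        exact h2
    · intro x hx' y hy' h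
      obtain ⟨k1, k2, k3, k4, k5, k6, k7, k8⟩ := key x (mem_filter.1 (mem_coe.1 hx')).1
      obtain ⟨j1, j2, j3, j4, j5, j6, j7, j8⟩ := key y (mem_filter.1 (mem_coe.1 hy')).1
      refine D.l_inj x k1 y j1 (k5.symm.trans j5) k2 ?_
      refine D.l_inj _ k2 _ j2 (k6.symm.trans j6) k3 ?_
      refine D.l_inj _ k3 _ j3 (k7.symm.trans j7) k4 ?_
      exact L.inj _ k4 _ j4 (by rw [← k8]; omega) (by rw [← D.l_role _ q2 _ k4 k8]; omega)
        (k8.symm.trans j8) h

/-- Admissible images of a vertex. -/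
def okp (D : LD T Λ) (H : Host β) (ψ : α → β) (x : α) (w : β) : Prop :=
  T.p x ∉ D.G → H.R (T.dir x) (ψ (T.p x)) w

theorem class_step (P : Parts D H) {d : ℕ} {ψ : α → β} (L : Lev P d ψ) {x0 : α} (hx : x0 ∈ D.U)
    (hd : D.rk (D.lab x0) = d) (hrole : D.role x0 ≤ 1) :
    ∃ f : α → β, Set.InjOn f (D.C x0) ∧ ∀ x ∈ D.C x0, f x ∈ fib P.o (Sum.inl (D.lab x0)) ∧
      okp D H ψ x (f x) := by
  have hnon : ∀ x, ((fib P.o (Sum.inl (D.lab x0))).filter fun w =>
      ¬ okp D H ψ x w)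
      ⊆ fib P.o (Sum.inl (D.lab x0)) ∩ H.non (T.dir x) (ψ (T.p x)) := by
    intro x w hw
    obtain ⟨h1, h2⟩ := mem_filter.1 hw
    exact mem_inter.2 ⟨h1, H.mem_non.2 fun h => h2 fun _ => h⟩
  have hsub : ∀ w, ((D.C x0).filter fun x => ¬ okp D H ψ x w)
      ⊆ (D.C x0).filter fun x => ¬ H.R (T.dir x) (ψ (T.p x)) w := by
    intro w x hx'
    obtain ⟨h1, h2⟩ := mem_filter.1 hx'
    exact mem_filter.2 ⟨h1, fun h => h2 fun _ => h⟩
  have h1 : T.p x0 ∉ D.Hv → ∀ x ∈ D.C x0, (((fib P.o (Sum.inl (D.lab x0))).filter fun w =>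
      ¬ okp D H ψ x w).card : ℝ) + 0.506 * (D.C x0).card
        ≤ (fib P.o (Sum.inl (D.lab x0))).card := by
    intro hH x _
    have e1 := P.pc x0 hx hrole hH (ψ (T.p x)) (T.dir x)
    have e2 : (((fib P.o (Sum.inl (D.lab x0))).filter fun w =>
      ¬ okp D H ψ x w).card : ℝ)
        ≤ (fib P.o (Sum.inl (D.lab x0)) ∩ H.non (T.dir x) (ψ (T.p x))).card := by
      exact_mod_cast card_le_card (hnon x)
    linarith
  have hpa := P.pa x0 hx hrole
  rcases D.cover (T.p x0) with hS | hG | hU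
  · by_cases hH : T.p x0 ∈ D.Hv
    · have hall : ∀ x ∈ D.C x0, ∀ w ∈ fib P.o (Sum.inl (D.lab x0)),
          okp D H ψ x w := by
        intro x hx' w hw _
        obtain ⟨h3, h4⟩ := D.mem_C.1 hx'
        have e := D.l_hub x0 hx x h3 h4.symm hH
        rw [L.onS _ (e ▸ hS)]
        exact P.pd x h3 (e ▸ hH) w (h4 ▸ mem_fib.1 hw)
      refine hall_deg (P.φ x0) _ _ ∅ (okp D H ψ) 0 ?_ ?_ (by simpa using hpa)
      · intro x hx'
        rw [add_zero, Nat.cast_le]
        exact card_le_card (filter_subset _ _)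
      · intro w hw _
        rw [filter_eq_empty_iff.2 fun x hx' => not_not.2 (hall x hx' w hw)]
        simp
    · refine hall_deg (P.φ x0) _ _ _ (okp D H ψ) _ (h1 hH) ?_ (P.pe x0 hx hS hH)
      intro w _ hw
      simp only [mem_filter, mem_univ, true_and, not_lt] at hw
      refine le_trans ?_ hw
      rw [Nat.cast_le]
      refine (card_le_card (hsub w)).trans (le_of_eq ?_)
      congr 1
      refine filter_congr fun x hx' => ?_
      obtain ⟨h3, h4⟩ := D.mem_C.1 hx'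
      rw [L.onS _ (D.l_med x0 hx x h3 h4.symm hS)]
  · have hall : ∀ x ∈ D.C x0, T.p x ∈ D.G := by
      intro x hx'
      obtain ⟨h3, h4⟩ := D.mem_C.1 hx'
      rcases D.cover (T.p x) with h | h | h
      · exact absurd hG (D.dSG _ (D.l_med x h3 x0 hx h4 h))
      · exact h
      · exact absurd (D.l_in x h3 x0 hx h4 h).1 (D.dGU _ hG)
    refine hall_deg (P.φ x0) _ _ ∅ (okp D H ψ) 0 ?_ ?_ (by simpa using hpa)
    · intro x hx'
      rw [add_zero, Nat.cast_le]
      exact card_le_card (filter_subset _ _)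
    · intro w hw _
      have hok : ∀ x ∈ D.C x0, okp D H ψ x w := fun x hx' h => absurd (hall x hx') h
      rw [filter_eq_empty_iff.2 fun x hx' => not_not.2 (hok x hx')]
      simp
  · refine hall_deg (P.φ x0) _ _ ∅ (okp D H ψ) _ (h1 fun h => D.dSU _ (D.Hv_sub h) hU) ?_ (by simpa using hpa)
    intro w _ _
    refine le_trans ?_ (inner_count P L hx hU (hd ▸ D.l_rk x0 hx hU) (D.par_role hx hU hrole) w)
    exact_mod_cast card_le_card (hsub w)

theorem exists_lev (P : Parts D H) (d : ℕ) : ∃ ψ, Lev P d ψ := by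
  induction d with
  | zero => exact ⟨P.φ, fun _ _ => rfl, by simp, by simp, by simp, by simp⟩
  | succ d ih =>
    obtain ⟨ψ, L⟩ := ih
    have hch : ∀ l : Λ, ∃ f : α → β, ∀ x0 ∈ D.U, D.lab x0 = l → D.rk l = d → D.role x0 ≤ 1 →
        Set.InjOn f (D.C x0) ∧ ∀ x ∈ D.C x0, f x ∈ fib P.o (Sum.inl (D.lab x0)) ∧
          (T.p x ∉ D.G → H.R (T.dir x) (ψ (T.p x)) (f x)) := by
      intro l
      by_cases h : ∃ x0 ∈ D.U, D.lab x0 = l ∧ D.rk l = d ∧ D.role x0 ≤ 1
      · obtain ⟨x0, h1, h2, h3, h4⟩ := h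
        obtain ⟨f, hf⟩ := class_step P L h1 (h2 ▸ h3) h4
        refine ⟨f, fun x1 k1 k2 _ _ => ?_⟩
        rw [D.C_congr (k2.trans h2.symm), k2.trans h2.symm]
        exact hf
      · exact ⟨ψ, fun x0 h1 h2 h3 h4 => absurd ⟨x0, h1, h2, h3, h4⟩ h⟩
    choose f hf using hch
    set χ : α → β := fun x => if x ∈ D.U ∧ D.rk (D.lab x) = d then
      (if D.role x ≤ 1 then f (D.lab x) x else P.σ (ψ (T.p (T.p x)))) else ψ x with hχ
    have old : ∀ x, (x ∈ D.U → D.rk (D.lab x) ≠ d) → χ x = ψ x := by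
      intro x h
      simp only [hχ]
      rw [if_neg fun h' => h h'.1 h'.2]
    have oldp : ∀ x ∈ D.U, D.rk (D.lab x) < d + 1 → χ (T.p x) = ψ (T.p x) := by
      intro x hx h
      refine old _ fun hp => ?_
      have := D.l_rk x hx hp
      omega
    have new : ∀ x ∈ D.U, D.rk (D.lab x) = d → D.role x ≤ 1 → χ x = f (D.lab x) x := by
      intro x h1 h2 h3
      simp only [hχ, h1, h2, h3, and_self, if_true]
    refine ⟨χ, ?_, ?_, ?_, ?_, ?_⟩
    · intro s hs
      rw [old s fun h => absurd h (D.dSU s hs), L.onS s hs]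
    · intro x hx h hr
      by_cases hd : D.rk (D.lab x) = d
      · rw [new x hx hd hr]
        exact mem_fib.1 ((hf _ x hx rfl hd hr).2 x (D.mem_C.2 ⟨hx, rfl⟩)).1
      · rw [old x fun _ => hd]
        exact L.zone x hx (by omega) hr
    · intro x hx h hr hG
      rw [oldp x hx h]
      by_cases hd : D.rk (D.lab x) = d
      · rw [new x hx hd hr]
        exact ((hf _ x hx rfl hd hr).2 x (D.mem_C.2 ⟨hx, rfl⟩)).2 hG
      · rw [old x fun _ => hd]
        exact L.edge x hx (by omega) hr hG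
    · intro x hx y hy h hr hl he
      by_cases hd : D.rk (D.lab x) = d
      · rw [new x hx hd hr, new y hy (hl ▸ hd) (D.l_role x hx y hy hl ▸ hr), ← hl] at he
        exact (hf _ x hx rfl hd hr).1 (D.mem_C.2 ⟨hx, rfl⟩) (D.mem_C.2 ⟨hy, hl.symm⟩) he
      · rw [old x fun _ => hd, old y fun _ => hl ▸ hd] at he
        exact L.inj x hx y hy (by omega) hr hl he
    · intro y hy h hr
      obtain ⟨q1, q2, q3⟩ := D.y_gp hy hr
      have r1 := D.l_rk _ hy q1
      rw [oldp _ q1 (by omega)]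
      by_cases hd : D.rk (D.lab y) = d
      · simp only [hχ, hy, hd, and_self, if_true]
        rw [if_neg (by omega)]
      · rw [old y fun _ => hd]
        exact L.onY y hy (by omega) hr

/-- A partition adapted to a labelled decomposition yields an embedding. -/
theorem embed (P : Parts D H) (hcard : Fintype.card α = Fintype.card β) : ∃ φ, Emb T H φ := by
  obtain ⟨d, hd⟩ : ∃ d, ∀ x, D.rk (D.lab x) < d :=
    ⟨univ.sup (fun x => D.rk (D.lab x)) + 1, fun x =>
      Nat.lt_succ_of_le (le_sup (f := fun x => D.rk (D.lab x)) (mem_univ x))⟩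
  obtain ⟨ψ, L⟩ := exists_lev P d
  obtain ⟨χ, c1, c2, c3, c4⟩ := greedy T H D.G (fib P.o (Sum.inr 1)) ψ (D.dSG _ D.r_mem) D.G_ch P.pr
  have cU : ∀ x ∈ D.U, χ x = ψ x := fun x hx => c1 x fun h => D.dGU x h hx
  have cS : ∀ x ∈ D.S, χ x = P.φ x := fun x hx => by rw [c1 x (D.dSG x hx), L.onS x hx]
  set Z := D.Ro 2 with hZ
  have zS : ∀ x ∈ D.S, P.o (χ x) = Sum.inr 0 := fun x hx => by rw [cS x hx, P.S_zone x hx]
  have zG : ∀ x ∈ D.G, P.o (χ x) = Sum.inr 1 := fun x hx => mem_fib.1 (c3 x hx)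
  have zU : ∀ x ∈ D.U, D.role x ≤ 1 → P.o (χ x) = Sum.inl (D.lab x) := fun x hx h => by
    rw [cU x hx, L.zone x hx (hd x) h]
  have zY : ∀ x ∈ D.U, D.role x = 3 → P.o (χ x) = Sum.inr 3 := fun x hx h => by
    obtain ⟨q1, q2, q3⟩ := D.y_gp hx h
    rw [cU x hx, L.onY x hx (hd x) h]
    exact P.σ_zone _ q2 q3 _ (L.zone _ q2 (hd _) (by omega))
  have kinds : ∀ x, x ∉ Z → x ∈ D.S ∨ x ∈ D.G ∨ (x ∈ D.U ∧ D.role x ≤ 1) ∨ (x ∈ D.U ∧ D.role x = 3) := by
    intro x hx
    rw [hZ, D.mem_Ro] at hx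
    have := D.role_le x
    rcases D.cover x with h | h | h
    · exact Or.inl h
    · exact Or.inr (Or.inl h)
    · have : D.role x ≠ 2 := fun h' => hx ⟨h, h'⟩
      by_cases h3 : D.role x = 3
      · exact Or.inr (Or.inr (Or.inr ⟨h, h3⟩))
      · exact Or.inr (Or.inr (Or.inl ⟨h, by omega⟩))
  have injU : ∀ x ∈ D.U, ∀ y ∈ D.U, D.role x ≤ 1 → D.role y ≤ 1 → ψ x = ψ y → x = y := by
    intro x hx y hy h1 h2 he
    have e1 := L.zone x hx (hd x) h1
    have e2 := L.zone y hy (hd y) h2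
    rw [he, e2] at e1
    exact L.inj x hx y hy (hd x) h1 (Sum.inl.inj e1).symm he
  have hinj : Set.InjOn χ ((univ \ Z : Finset α) : Set α) := by
    intro x hx y hy he
    have hx' := kinds x (mem_sdiff.1 (mem_coe.1 hx)).2
    have hy' := kinds y (mem_sdiff.1 (mem_coe.1 hy)).2
    have ho : P.o (χ x) = P.o (χ y) := by rw [he]
    rcases hx' with h | h | ⟨h, h'⟩ | ⟨h, h'⟩ <;> rcases hy' with k | k | ⟨k, k'⟩ | ⟨k, k'⟩
    · rw [cS x h, cS y k] at he; exact P.S_inj h k he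
    · rw [zS x h, zG y k] at ho; simp at ho
    · rw [zS x h, zU y k k'] at ho; simp at ho
    · rw [zS x h, zY y k k'] at ho; simp at ho
    · rw [zG x h, zS y k] at ho; simp at ho
    · exact c2 h k he
    · rw [zG x h, zU y k k'] at ho; simp at ho
    · rw [zG x h, zY y k k'] at ho; simp at ho
    · rw [zU x h h', zS y k] at ho; simp at ho
    · rw [zU x h h', zG y k] at ho; simp at ho
    · rw [cU x h, cU y k] at he; exact injU x h y k h' k' he
    · rw [zU x h h', zY y k k'] at ho; simp at ho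
    · rw [zY x h h', zS y k] at ho; simp at ho
    · rw [zY x h h', zG y k] at ho; simp at ho
    · rw [zY x h h', zU y k k'] at ho; simp at ho
    · obtain ⟨q1, q2, q3⟩ := D.y_gp h h'
      obtain ⟨s1, s2, s3⟩ := D.y_gp k k'
      rw [cU x h, cU y k, L.onY x h (hd x) h', L.onY y k (hd y) k'] at he
      have e1 := P.σ_inj _ q2 q3 _ s2 s3 _ _ (L.zone _ q2 (hd _) (by omega))
        (L.zone _ s2 (hd _) (by omega)) he
      have e2 := injU _ q2 _ s2 (by omega) (by omega) e1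
      obtain ⟨t1, -, t3, -⟩ := D.y_par x h h'
      obtain ⟨-, -, t3', -⟩ := D.y_par y k k'
      exact D.y_inj x h y k h' k' (D.z_inj t1 _ q1 _ s1 t3 t3' e2)
  set Lf : Finset β := univ \ (univ \ Z).image χ with hLf
  have hLc : Lf.card = Z.card := by
    rw [hLf, card_sdiff_of_subset (subset_univ _), card_image_of_injOn hinj,
      card_sdiff_of_subset (subset_univ _), card_univ, card_univ, ← hcard]
    have := card_le_univ Z
    omega
  have hzL : fib P.o (Sum.inr 2) ⊆ Lf := by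
    intro w hw
    rw [hLf, mem_sdiff]
    refine ⟨mem_univ _, fun h => ?_⟩
    obtain ⟨x, hx, rfl⟩ := mem_image.1 h
    have ho := mem_fib.1 hw
    rcases kinds x (mem_sdiff.1 hx).2 with h | h | ⟨h, h'⟩ | ⟨h, h'⟩
    · rw [zS x h] at ho; simp at ho
    · rw [zG x h] at ho; simp at ho
    · rw [zU x h h'] at ho; simp at ho
    · rw [zY x h h'] at ho; simp at ho
  have hfin : ∃ f : α → β, Set.InjOn f Z ∧ ∀ z ∈ Z, f z ∈ Lf ∧ H.R (T.dir z) (ψ (T.p z)) (f z) ∧
      (D.mode = true → H.R (!D.b2) (P.σ (ψ (T.p z))) (f z)) := by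
    cases hm : D.mode
    · obtain ⟨f, hf1, hf2⟩ := hall_deg (P.φ T.r) Z Lf ∅ (fun z w => H.R (T.dir z) (ψ (T.p z)) w)
        (0.506 * Z.card) (by
          intro z hz
          have e1 : (Lf.filter fun w => ¬ H.R (T.dir z) (ψ (T.p z)) w) ⊆
              (Lf \ fib P.o (Sum.inr 2)) ∪ (fib P.o (Sum.inr 2) ∩ H.non (T.dir z) (ψ (T.p z))) := by
            intro w hw
            obtain ⟨h1, h2⟩ := mem_filter.1 hw
            simp only [mem_union, mem_sdiff, mem_inter, h1, true_and, H.mem_non, h2, not_false_eq_true,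
              and_true]
            tauto
          have e2 := (card_le_card e1).trans (card_union_le _ _)
          rw [card_sdiff_of_subset hzL] at e2
          have e3 := card_le_card hzL
          have e4 : (Lf.filter fun w => ¬ H.R (T.dir z) (ψ (T.p z)) w).card + (fib P.o (Sum.inr 2)).card
              ≤ Z.card + (fib P.o (Sum.inr 2) ∩ H.non (T.dir z) (ψ (T.p z))).card := by omega
          have e5 : ((Lf.filter fun w => ¬ H.R (T.dir z) (ψ (T.p z)) w).card : ℝ)
              + (fib P.o (Sum.inr 2)).card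
              ≤ Z.card + (fib P.o (Sum.inr 2) ∩ H.non (T.dir z) (ψ (T.p z))).card := by
            exact_mod_cast e4
          have e6 := P.pz
          have e7 := P.pz' (ψ (T.p z)) (T.dir z)
          rw [← hZ] at e6 e7
          have e8 : (0 : ℝ) ≤ Z.card := Nat.cast_nonneg _
          rw [hLc]
          linarith)
        (by
          intro w _ _
          refine card_le_of_fiber Z D.lab _ _ fun z0 hz0 => ?_
          obtain ⟨h1, h2⟩ := D.mem_Ro.1 hz0
          have e : (Z.filter fun z => D.lab z = D.lab z0) = D.C z0 := by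
            ext z
            simp only [mem_filter, hZ, D.mem_Ro, D.mem_C]
            exact ⟨fun h => ⟨h.1.1, h.2⟩, fun h => ⟨⟨h.1, D.l_role z h.1 z0 h1 h.2 ▸ h2⟩, h.2⟩⟩
          rw [e]
          obtain ⟨h3, h4, -⟩ := D.z_par z0 h1 h2
          rw [hm] at h4
          exact inner_count P L h1 h3 (hd _) (Or.inl h4) w)
        (by simp [hLc])
      exact ⟨f, hf1, fun z hz => ⟨(hf2 z hz).1, (hf2 z hz).2, by simp⟩⟩
    · obtain ⟨f, hf1, hf2⟩ := hall (P.φ T.r) Z (fun z => Lf.filter fun w =>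
        H.R D.b1 (ψ (T.p z)) w ∧ H.R (!D.b2) (P.σ (ψ (T.p z))) w) (by
          intro s hs
          have hpar : ∀ z ∈ s, z ∈ D.U ∧ D.role z = 2 ∧ T.p z ∈ D.U ∧ D.role (T.p z) = 1 := by
            intro z hz
            obtain ⟨h1, h2⟩ := D.mem_Ro.1 (hs hz)
            obtain ⟨h3, h4, -⟩ := D.z_par z h1 h2
            rw [hm] at h4
            exact ⟨h1, h2, h3, h4⟩
          have e1 := P.pz'' hm Lf hzL hLc (s.image fun z => ψ (T.p z)) (by
            intro a ha
            obtain ⟨z, hz, rfl⟩ := mem_image.1 ha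
            obtain ⟨h1, h2, h3, h4⟩ := hpar z hz
            exact ⟨_, h3, h4, L.zone _ h3 (hd _) (by omega)⟩)
          rw [card_image_of_injOn (by
            intro z hz z' hz' he
            obtain ⟨h1, h2, h3, h4⟩ := hpar z hz
            obtain ⟨k1, k2, k3, k4⟩ := hpar z' hz'
            exact D.z_inj hm z h1 z' k1 h2 k2 (injU _ h3 _ k3 (by omega) (by omega) he))] at e1
          refine e1.trans (card_le_card ?_)
          intro w hw
          obtain ⟨h1, a, ha, h2⟩ := mem_filter.1 hw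
          obtain ⟨z, hz, rfl⟩ := mem_image.1 ha
          exact mem_biUnion.2 ⟨z, hz, mem_filter.2 ⟨h1, h2⟩⟩)
      refine ⟨f, hf1, fun z hz => ?_⟩
      obtain ⟨h1, h2, h3⟩ := mem_filter.1 (hf2 z hz)
      obtain ⟨k1, k2⟩ := D.mem_Ro.1 hz
      exact ⟨h1, by rw [(D.z_par z k1 k2).2.2 hm]; exact h2, fun _ => h3⟩
  obtain ⟨f, hf1, hf2⟩ := hfin
  refine ⟨fun v => if v ∈ Z then f v else χ v, ?_, ?_⟩
  · have hout : ∀ z ∈ Z, ∀ v, v ∉ Z → f z ≠ χ v := by
      intro z hz v hv h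
      have := (hf2 z hz).1
      rw [hLf, mem_sdiff] at this
      exact this.2 (mem_image.2 ⟨v, mem_sdiff.2 ⟨mem_univ _, hv⟩, h.symm⟩)
    intro x y he
    by_cases hx : x ∈ Z <;> by_cases hy : y ∈ Z <;> simp only [hx, hy, if_true, if_false] at he
    · exact hf1 hx hy he
    · exact absurd he (hout x hx y hy)
    · exact absurd he.symm (hout y hy x hx)
    · exact hinj (by simp [hx]) (by simp [hy]) he
  · intro v hv
    by_cases hvZ : v ∈ Z
    · obtain ⟨k1, k2⟩ := D.mem_Ro.1 hvZ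
      obtain ⟨h3, h4, -⟩ := D.z_par v k1 k2
      have : T.p v ∉ Z := by
        intro h
        have := (D.mem_Ro.1 h).2
        split_ifs at h4 <;> omega
      simp only [hvZ, this, if_true, if_false]
      rw [cU _ h3]
      exact (hf2 v hvZ).2.1
    · by_cases hp : T.p v ∈ Z
      · simp only [hvZ, hp, if_true, if_false]
        obtain ⟨k1, k2⟩ := D.mem_Ro.1 hp
        obtain ⟨h1, h2⟩ := D.z_ch v k1 k2
        obtain ⟨h3, -, -, h4⟩ := D.y_par v h1 h2
        rw [cU v h1, L.onY v h1 (hd v) h2, h4, H.symm]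
        exact (hf2 _ hp).2.2 h3
      · simp only [hvZ, hp, if_false]
        by_cases hG : v ∈ D.G ∨ T.p v ∈ D.G
        · exact c4 v hv hG
        · rw [not_or] at hG
          rcases kinds v hvZ with h | h | ⟨h, h'⟩ | ⟨h, h'⟩
          · have hpS : T.p v ∈ D.S := by
              rcases D.cover (T.p v) with k | k | k
              · exact k
              · exact absurd k hG.2
              · exact absurd k (D.S_par v h)
            rw [cS v h, cS _ hpS]
            exact P.S_edge v h hv hpS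
          · exact absurd h hG.1
          · rw [c1 _ hG.1, c1 _ hG.2]
            exact L.edge v h (hd v) h' hG.2
          · obtain ⟨-, h1, h2, -⟩ := D.y_par v h h'
            exact absurd (D.mem_Ro.2 ⟨h1, h2⟩) hp


end Pool.Agent.MP_6f6f6b_co.B
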