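import Pool.Agent.MP_6f6f6b_co.Main

set_option autoImplicit false
set_option linter.unusedVariables false

namespace Pool.Agent.MP_6f6f6b_co.B

/-- For `x > γ` one of two linear bounds applies. -/
theorem ineq_full (Sr Sl ru lu M x P Q : ℝ) (h1 : 0 ≤ Sr) (h3 : 0 ≤ ru)
    (hsum : Sr + Sl + lu + M = 1) (hM : 0.995 * (Sr + 2 * ru) ≤ M) (h2 : 0 ≤ Sl) (h4 : 0 ≤ lu)
    (hx1 : x ≤ 1) (hP : Sr * (x - 0.3354) / 0.6646 ≤ P) (hQ : Sl ≤ Q) :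
    x ≤ 0.4 * ru + lu + (M - 0.4 * ru) + P + Q := by
  have hS : Sr ≤ 0.6646 := by nlinarith
  have : Sr * (x - 0.3354) / 0.6646 = Sr - Sr * (1 - x) / 0.6646 := by ring
  have h5 : Sr * (1 - x) / 0.6646 ≤ 1 - x := by
    rw [div_le_iff₀ (by norm_num)]
    nlinarith
  linarith

/-- Linear interpolation between `x0` and `1`. -/
theorem ineq_lin (Sr Sl ru lu M x x0 P Q : ℝ) (h1 : 0 ≤ Sr) (h3 : 0 ≤ ru)
    (hsum : Sr + Sl + lu + M = 1) (hM : 0.995 * (Sr + 2 * ru) ≤ M)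
    (hx0 : x0 ≤ x) (hx1 : x ≤ 1) (hx01 : x0 < 1)
    (hP : Sr * (x - 0.3354) / 0.6646 ≤ P) (hQ : Sl ≤ Q)
    (hF : x0 ≤ 0.4 * ru + lu + (0.494 * M - 0.4 * ru) / 0.3354 * x0 + Sr * (x0 - 0.3354) / 0.6646 + Sl) :
    x ≤ 0.4 * ru + lu + (0.494 * M - 0.4 * ru) / 0.3354 * x + P + Q := by
  have hF1 : 1 ≤ 0.4 * ru + lu + (0.494 * M - 0.4 * ru) / 0.3354 * 1 + Sr * (1 - 0.3354) / 0.6646 + Sl := by
    have : Sr * (1 - 0.3354) / 0.6646 = Sr := by ring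
    rw [this]
    have : M - 0.4 * ru ≤ (0.494 * M - 0.4 * ru) / 0.3354 * 1 := by
      rw [mul_one, le_div_iff₀ (by norm_num)]
      nlinarith
    linarith
  set ρ := (0.494 * M - 0.4 * ru) / 0.3354 with hρ
  have key : (1 - x0) * (0.4 * ru + lu + ρ * x + Sr * (x - 0.3354) / 0.6646 + Sl - x)
      = (1 - x) * (0.4 * ru + lu + ρ * x0 + Sr * (x0 - 0.3354) / 0.6646 + Sl - x0)
        + (x - x0) * (0.4 * ru + lu + ρ * 1 + Sr * (1 - 0.3354) / 0.6646 + Sl - 1) := by ring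
  have hpos : 0 ≤ (1 - x0) * (0.4 * ru + lu + ρ * x + Sr * (x - 0.3354) / 0.6646 + Sl - x) := by
    rw [key]
    apply add_nonneg <;> apply mul_nonneg <;> linarith
  have := (mul_nonneg_iff_of_pos_left (show 0 < 1 - x0 by linarith)).1 hpos
  linarith

theorem N0 (Sr Sl ru lu M : ℝ) (h1 : 0 ≤ Sr) (h2 : 0 ≤ Sl) (h3 : 0 ≤ ru) (h4 : 0 ≤ lu)
    (hsum : Sr + Sl + lu + M = 1) (hM : 0.995 * (Sr + 2 * ru) ≤ M)
    (hN : lu + Sl + 0.494 * M < 0.3354) :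
    0.0847 * (ru + 2 * lu) * (2.262016 * Sr + 1.8 ^ 2 * Sl / 2) ≤ 2 * 0.14 * (0.4 * ru + lu) := by
  have hE : 2.262016 * Sr + 1.8 ^ 2 * Sl / 2 ≤ 1.25 := by nlinarith
  nlinarith

theorem Ng (Sr Sl ru lu M : ℝ) (h1 : 0 ≤ Sr) (h2 : 0 ≤ Sl) (h3 : 0 ≤ ru) (h4 : 0 ≤ lu)
    (hsum : Sr + Sl + lu + M = 1) (hM : 0.995 * (Sr + 2 * ru) ≤ M)
    (hN : lu + Sl + 0.494 * M < 0.3354) :
    0.0847 * (ru + 2 * lu) * (2.262016 * Sr + 1.8 ^ 2 * Sl / 2) + 0.14 ^ 2 * 0.3354 ≤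
      2 * 0.14 * (0.4 * ru + lu + ((0.494 * M - 0.4 * ru) / 0.3354
        + 0.4954 * (1.504 * Sr + 1.8 * Sl) - 1) * 0.3354) := by
  norm_num at *
  nlinarith [mul_nonneg h3 (sub_nonneg.2 hM), mul_nonneg h4 (sub_nonneg.2 hM), mul_nonneg h3 (sub_nonneg.2 hN.le), mul_nonneg h4 (sub_nonneg.2 hN.le), mul_nonneg h3 h3, mul_nonneg h3 h4, mul_nonneg h4 h4, mul_nonneg h3 h2, mul_nonneg h4 h2, mul_nonneg h3 h1, mul_nonneg h4 h1]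

theorem N0' (Sr Sl ru lu M : ℝ) (h1 : 0 ≤ Sr) (h2 : 0 ≤ Sl) (h3 : 0 ≤ ru) (h4 : 0 ≤ lu)
    (hsum : Sr + Sl + lu + M = 1) (hM : 0.995 * (Sr + 2 * ru) ≤ M)
    (hN : lu + Sl + 0.494 * M < 0.3354) :
    0.0847 * (ru + 2 * lu) * (2.262016 * Sr + 1.8 ^ 2 * Sl / 2) ≤ 2 * 0.16 * (0.4 * ru + lu + Sl) := by
  have := N0 Sr Sl ru lu M h1 h2 h3 h4 hsum hM hN
  linarith

theorem N1 (Sr Sl ru lu M : ℝ) (h1 : 0 ≤ Sr) (h2 : 0 ≤ Sl) (h3 : 0 ≤ ru) (h4 : 0 ≤ lu)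
    (hsum : Sr + Sl + lu + M = 1) (hM : 0.995 * (Sr + 2 * ru) ≤ M)
    (hN : lu + Sl + 0.494 * M < 0.3354) :
    0.0847 * (ru + 2 * lu) * (2.262016 * Sr + 1.8 ^ 2 * Sl / 2) + 0.16 ^ 2 * 0.52 ≤
      2 * 0.16 * (0.4 * ru + lu + Sl + ((0.494 * M - 0.4 * ru) / 0.3354 - 1.8 * Sl
        + 0.4954 * (1.504 * Sr + 1.8 * Sl) - 1) * 0.52) := by
  norm_num at *
  nlinarith [mul_nonneg h3 (sub_nonneg.2 hM), mul_nonneg h4 (sub_nonneg.2 hM), mul_nonneg h3 (sub_nonneg.2 hN.le), mul_nonneg h4 (sub_nonneg.2 hN.le), mul_nonneg h3 h3, mul_nonneg h3 h4, mul_nonneg h4 h4, mul_nonneg h3 h2, mul_nonneg h4 h2, mul_nonneg h3 h1, mul_nonneg h4 h1]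

theorem N2 (Sr Sl ru lu M : ℝ) (h1 : 0 ≤ Sr) (h2 : 0 ≤ Sl) (h3 : 0 ≤ ru) (h4 : 0 ≤ lu)
    (hsum : Sr + Sl + lu + M = 1) (hM : 0.995 * (Sr + 2 * ru) ≤ M)
    (hN : lu + Sl + 0.494 * M < 0.3354) :
    0.52 ≤ 0.4 * ru + lu + (0.494 * M - 0.4 * ru) / 0.3354 * 0.52 + Sr * (0.52 - 0.3354) / 0.6646 + Sl := by
  norm_num at *
  linarith

theorem L0 (Sr Sl ru lu M : ℝ) (h1 : 0 ≤ Sr) (h2 : 0 ≤ Sl) (h3 : 0 ≤ ru) (h4 : 0 ≤ lu)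
    (hsum : Sr + Sl + lu + M = 1) (hM : 0.995 * (Sr + 2 * ru) ≤ M)
    (hL : 0.3354 ≤ lu + Sl + 0.494 * M) (hL' : lu + 0.494 * M < 0.3354) :
    0.0847 * (ru + 2 * lu) * (2.262016 * Sr + 2.98 ^ 2 * Sl / 2) ≤ 2 * (0.15 + 0.5 * Sl) * (0.4 * ru + lu) := by
  have hE : 0.0847 * (2.262016 * Sr + 2.98 ^ 2 * Sl / 2) ≤ 0.8 * (0.15 + 0.5 * Sl) := by nlinarith
  nlinarith

theorem L1 (Sr Sl ru lu M : ℝ) (h1 : 0 ≤ Sr) (h2 : 0 ≤ Sl) (h3 : 0 ≤ ru) (h4 : 0 ≤ lu)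
    (hsum : Sr + Sl + lu + M = 1) (hM : 0.995 * (Sr + 2 * ru) ≤ M)
    (hL : 0.3354 ≤ lu + Sl + 0.494 * M) (hL' : lu + 0.494 * M < 0.3354) :
    0.0847 * (ru + 2 * lu) * (2.262016 * Sr + 2.98 ^ 2 * Sl / 2) + (0.15 + 0.5 * Sl) ^ 2 * 0.3354 ≤
      2 * (0.15 + 0.5 * Sl) * (0.4 * ru + lu + ((0.494 * M - 0.4 * ru) / 0.3354
        + 0.4954 * (1.504 * Sr + 2.98 * Sl) - 1) * 0.3354) := by
  norm_num at *
  nlinarith [mul_nonneg h3 (sub_nonneg.2 hM), mul_nonneg h4 (sub_nonneg.2 hM), mul_nonneg h2 (sub_nonneg.2 hM), mul_nonneg h1 (sub_nonneg.2 hM), mul_nonneg h3 (sub_nonneg.2 hL), mul_nonneg h4 (sub_nonneg.2 hL), mul_nonneg h3 (sub_nonneg.2 hL'.le), mul_nonneg h4 (sub_nonneg.2 hL'.le), mul_nonneg h3 h3, mul_nonneg h3 h4, mul_nonneg h4 h4, mul_nonneg h3 h2, mul_nonneg h4 h2, mul_nonneg h3 h1, mul_nonneg h4 h1, mul_nonneg h2 h2, mul_nonneg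 h1 h2, mul_nonneg h1 h1, mul_nonneg h2 (sub_nonneg.2 hL), mul_nonneg h2 (sub_nonneg.2 hL'.le)]

/-- The key numerical inequality behind the cut condition. -/
theorem ineq (Sr Sl ru lu M : ℝ) (h1 : 0 ≤ Sr) (h2 : 0 ≤ Sl) (h3 : 0 ≤ ru) (h4 : 0 ≤ lu)
    (hsum : Sr + Sl + lu + M = 1) (hM : 0.995 * (Sr + 2 * ru) ≤ M) :
    ∃ c : ℝ, 0 ≤ c ∧ ∀ x P Q Jr Jl : ℝ, 0 < x → x ≤ 1 → 0 ≤ P → 0 ≤ Q →
      (∀ k : ℝ, 0 < k → 2 * k * (0.4954 * (1.504 * Sr + c * Sl) * x - (1.504 * Jr + c * Jl))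
          ≤ 0.0847 * (ru + 2 * lu) * (2.262016 * Sr + c ^ 2 * Sl / 2) + k ^ 2 * x) →
      (x ≤ 0.6646 → 1.504 * Jr ≤ P) → Sr * (x - 0.3354) / 0.6646 ≤ P → Jl ≤ Q * x →
      (0.3354 < x → Sl ≤ Q) →
      x ≤ 0.4 * ru + lu + min (M - 0.4 * ru) ((0.494 * M - 0.4 * ru) / 0.3354 * x) + P + Q := by
  have hρ0 : 0 ≤ 0.494 * M - 0.4 * ru := by nlinarith
  have hM0 : 0 ≤ M := by nlinarith
  -- it is enough to treat the second argument of the minimum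
  have red : ∀ x P Q : ℝ, 0 < x → x ≤ 1 → Sr * (x - 0.3354) / 0.6646 ≤ P → (0.3354 < x → Sl ≤ Q) →
      x ≤ 0.4 * ru + lu + (0.494 * M - 0.4 * ru) / 0.3354 * x + P + Q →
      x ≤ 0.4 * ru + lu + min (M - 0.4 * ru) ((0.494 * M - 0.4 * ru) / 0.3354 * x) + P + Q := by
    intro x P Q hx0 hx1 hP hQ h
    rcases le_total (M - 0.4 * ru) ((0.494 * M - 0.4 * ru) / 0.3354 * x) with hm | hm
    · rw [min_eq_left hm]
      by_cases hx : 0.3354 < x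
      · exact ineq_full Sr Sl ru lu M x P Q h1 h3 hsum hM h2 h4 hx1 hP (hQ hx)
      · have : (0.494 * M - 0.4 * ru) / 0.3354 * x ≤ 0.494 * M - 0.4 * ru := by
          rw [div_mul_eq_mul_div, div_le_iff₀ (by norm_num)]
          exact mul_le_mul_of_nonneg_left (not_lt.1 hx) hρ0
        nlinarith
    · rw [min_eq_right hm]; exact h
  by_cases hN : lu + Sl + 0.494 * M < 0.3354
  · refine ⟨1.8, by norm_num, ?_⟩
    intro x P Q Jr Jl hx0 hx1 hP0 hQ0 hJ hP1 hP2 hQ1 hQ2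
    apply red x P Q hx0 hx1 hP2 hQ2
    by_cases hxg : x ≤ 0.3354
    · refine ineq_quad _ _ _ 0.14 x 0.3354 (1.504 * Jr + 1.8 * Jl) P Q _ (by norm_num) hx0 hxg
        (N0 Sr Sl ru lu M h1 h2 h3 h4 hsum hM hN) (Ng Sr Sl ru lu M h1 h2 h3 h4 hsum hM hN)
        (hJ 0.14 (by norm_num)) ?_
      have := hP1 (by linarith)
      nlinarith
    by_cases hx : x ≤ 0.52
    · have hQ := hQ2 (not_le.1 hxg)
      have := ineq_quad _ _ _ 0.16 x 0.52 (1.504 * Jr + 1.8 * Jl) P (Q - Sl + 1.8 * Sl * x) _ (by norm_num) hx0 hx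
        (N0' Sr Sl ru lu M h1 h2 h3 h4 hsum hM hN) (N1 Sr Sl ru lu M h1 h2 h3 h4 hsum hM hN)
        (hJ 0.16 (by norm_num)) (by
          have := hP1 (by linarith)
          nlinarith [mul_nonneg (sub_nonneg.2 hQ) (show 0 ≤ 1 - 1.8 * x by linarith)])
      linarith
    · exact ineq_lin Sr Sl ru lu M x 0.52 P Q h1 h3 hsum hM (by linarith) hx1 (by norm_num) hP2
        (hQ2 (by linarith)) (N2 Sr Sl ru lu M h1 h2 h3 h4 hsum hM hN)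
  · refine ⟨2.98, by norm_num, ?_⟩
    intro x P Q Jr Jl hx0 hx1 hP0 hQ0 hJ hP1 hP2 hQ1 hQ2
    apply red x P Q hx0 hx1 hP2 hQ2
    push Not at hN
    by_cases hx : x ≤ 0.3354
    · by_cases hL : lu + 0.494 * M < 0.3354
      · refine ineq_quad _ _ _ (0.15 + 0.5 * Sl) x 0.3354 (1.504 * Jr + 2.98 * Jl) P Q _ (by positivity)
          hx0 hx (L0 Sr Sl ru lu M h1 h2 h3 h4 hsum hM hN hL)
          (L1 Sr Sl ru lu M h1 h2 h3 h4 hsum hM hN hL) (hJ _ (by positivity)) ?_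
        have := hP1 (by linarith)
        nlinarith
      · push Not at hL
        have e : (0.494 * M - 0.4 * ru) / 0.3354 * x = (0.494 * M - 0.4 * ru) * (x / 0.3354) := by ring
        have hy : x / 0.3354 ≤ 1 := by rw [div_le_iff₀ (by norm_num)]; linarith
        have hy0 : 0 ≤ x / 0.3354 := by positivity
        have hxx : x = 0.3354 * (x / 0.3354) := by ring
        rw [e]
        set y := x / 0.3354
        nlinarith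
    · refine ineq_lin Sr Sl ru lu M x 0.3354 P Q h1 h3 hsum hM (by linarith) hx1 (by norm_num) hP2
        (hQ2 (by linarith)) ?_
      norm_num at *
      linarith

end Pool.Agent.MP_6f6f6b_co.B
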