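import Pool.Agent.MP_6f6f6b_co.B.Parts
import Pool.Agent.MP_6f6f6b_co.B.Embed

set_option autoImplicit false
set_option linter.unusedVariables false
set_option linter.unusedSectionVars false

open Finset Filter Topology
open scoped Classical

namespace Pool.Agent.MP_6f6f6b_co.B

/-- Every large rooted oriented tree embeds in every host of the same order with a universal vertex. -/
theorem main_rooted : ∃ N : ℕ, ∀ (α β : Type) [Fintype α] [Fintype β], N ≤ Fintype.card β →
    Fintype.card α = Fintype.card β → ∀ (H : Host β) (u : β), (∀ b w, w ≠ u → H.R b u w) →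
    ∀ T : RTree α, ∃ φ, Emb T H φ := by
  obtain ⟨η, εM, εH, a, h1, h2, h3, h4, h5, N1, hN1⟩ := treeA
  obtain ⟨r, hr⟩ := exists_pow_lt_of_lt_one (show (0 : ℝ) < 0.005 by norm_num)
    (show (0.995 : ℝ) < 1 by norm_num)
  obtain ⟨N2, hN2⟩ := exp_beats ((η * εH / 100) ^ 2 / 4) (by positivity) r
  refine ⟨max N1 N2, fun α β _ _ hN hcard H u hu T => ?_⟩
  by_cases hI : 1000 * T.inner.card ≤ Fintype.card β
  · exact caseB T H u hu hcard hI
  · obtain ⟨Λ, D, hD⟩ := hN1 α T (hcard ▸ le_of_max_le_left hN) (hcard ▸ not_le.1 hI)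
    obtain ⟨P⟩ := exists_parts D H u hu hcard η εM εH a h1 h2 h3 h4 h5 (hcard ▸ hD) r hr.le (by
      have := hN2 _ (le_of_max_le_right hN)
      rwa [div_mul_eq_mul_div] at this)
    exact embed P hcard

theorem non_card {n : ℕ} (P : Fin n → Prop) (h : 133 * n ≤ 200 * {w : Fin n | P w}.ncard) :
    1000 * (univ.filter fun y => ¬ P y).card ≤ 335 * Fintype.card (Fin n) := by
  have e1 : {w : Fin n | P w}.ncard = (univ.filter P).card := by
    rw [← Set.ncard_coe_finset]
    congr 1
    ext w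
    simp
  have e2 := card_filter_add_card_filter_not (s := (univ : Finset (Fin n))) P
  rw [card_univ] at e2
  rw [Fintype.card_fin] at e2 ⊢
  omega

theorem main : ∃ N : ℕ, ∀ n : ℕ, N ≤ n → ∀ D : Digraph (Fin n),
      (∀ v : Fin n,
        133 * n ≤ 200 * {w : Fin n | w ≠ v ∧ D.Adj v w}.ncard ∧
        133 * n ≤ 200 * {w : Fin n | w ≠ v ∧ D.Adj w v}.ncard) →
      (∃ u : Fin n, ∀ w : Fin n, w ≠ u → D.Adj u w ∧ D.Adj w u) →
      ∀ T : Digraph (Fin n),
        (∀ a : Fin n, ¬ T.Adj a a) →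
        (∀ a b : Fin n, T.Adj a b → ¬ T.Adj b a) →
        (SimpleGraph.fromRel T.Adj).IsTree →
        ∃ f : Fin n → Fin n, Function.Injective f ∧
          ∀ a b : Fin n, T.Adj a b → D.Adj (f a) (f b) := by
  obtain ⟨N, hN⟩ := main_rooted
  refine ⟨N, fun n hn D hdeg ⟨u, hu⟩ T h1 h2 h3 => ?_⟩
  obtain ⟨par, hp0, hp1, hp2⟩ := exists_rooting h3 u
  let R : Bool → Fin n → Fin n → Prop := fun b x y =>
    match b with
    | true => y ≠ x ∧ D.Adj x y
    | false => y ≠ x ∧ D.Adj y x
  let H : Host (Fin n) := ⟨R, by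
    intro b x y
    cases b <;> simp only [R, Bool.not_false, Bool.not_true, ne_comm], by
    intro b x
    cases b
    · convert non_card _ (hdeg x).2
    · convert non_card _ (hdeg x).1⟩
  let T' : RTree (Fin n) := ⟨u, par, fun v => (SimpleGraph.fromRel T.Adj).dist u v,
    fun v => decide (T.Adj (par v) v), hp0, SimpleGraph.dist_self, hp1⟩
  obtain ⟨φ, hφ1, hφ2⟩ := hN (Fin n) (Fin n) (by simpa using hn) rfl H u (by
    intro b w hw
    cases b
    · exact ⟨hw, (hu w hw).2⟩
    · exact ⟨hw, (hu w hw).1⟩) T'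
  refine ⟨φ, hφ1, fun a b hab => ?_⟩
  have hne : a ≠ b := by rintro rfl; exact h1 a hab
  rcases hp2 a b ((SimpleGraph.fromRel_adj _ _ _).2 ⟨hne, Or.inl hab⟩) with ⟨h, e⟩ | ⟨h, e⟩
  · have := hφ2 b h
    simp only [T', H, e, hab, decide_true, R] at this
    exact this.2
  · have := hφ2 a h
    simp only [T', H, e, h2 a b hab, decide_false, R] at this
    exact this.2

end Pool.Agent.MP_6f6f6b_co.B
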