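import Pool.Agent.MP_6f6f6b_co.B.Plan
import Pool.Agent.MP_6f6f6b_co.B.Final

set_option autoImplicit false
set_option linter.unusedVariables false
set_option linter.unusedSectionVars false

open Finset
open scoped Classical

namespace Pool.Agent.MP_6f6f6b_co.B

variable {α β Λ : Type} [Fintype α] [Fintype β] {T : RTree α}

theorem exists_parts (D : LD T Λ) (H : Host β) (u : β) (hu : ∀ b w, w ≠ u → H.R b u w)
    (hcard : Fintype.card α = Fintype.card β) (η εM εH a : ℝ) (hη : 0 < η) (hεM : 0 < εM)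
    (hεH : 0 < εH) (ha0 : 0 ≤ a) (ha : 100000 * a ≤ η * εM ^ 3)
    (N : Num D (Fintype.card β) η εM εH a) (r : ℕ) (hr : (0.995 : ℝ) ^ r ≤ 0.005)
    (hexp : 9 * (Fintype.card β : ℝ) ^ 2 + (Fintype.card β : ℝ) ^ r
      < Real.exp ((η * εH / 100) ^ 2 * Fintype.card β / 4)) :
    Nonempty (Parts D H) := by
  obtain ⟨n, hn⟩ : ∃ n : ℝ, n = (Fintype.card β : ℝ) := ⟨_, rfl⟩
  have hn1 : 1 ≤ n := by rw [hn]; exact_mod_cast Host.card_pos u
  have hn0 : 0 < n := by linarith
  obtain ⟨m, hm⟩ : ∃ m : ℝ, m = ((D.Ro 2).card : ℝ) := ⟨_, rfl⟩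
  have hS := N.hS
  have hG := N.hG
  have hZ1 := N.hZ1
  have hZ2 := N.hZ2
  have hC := N.hC
  have hCm := N.hCm
  rw [← hn] at hS hG hZ1 hZ2 hC hCm hexp
  rw [← hm] at hZ1 hZ2
  have hηn : 0 < η * n := mul_pos hη hn0
  have hm0 : 0 < m := by linarith
  have hη1 : η ≤ 1 / 5000000 := by
    by_contra h
    push Not at h
    nlinarith
  have hZpos : 0 < (D.Ro 2).card := by rw [hm] at hm0; exact_mod_cast hm0
  have hCn : ∀ x, ((D.C x).card : ℝ) ≤ n := fun x => by
    rw [hn, ← hcard]; exact_mod_cast card_le_univ _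
  have hεH1 : εH ≤ 1 := by
    obtain ⟨z, hz⟩ := card_pos.1 hZpos
    have := (hC z (D.mem_Ro.1 hz).1).trans (hCn z)
    by_contra h
    push Not at h
    nlinarith
  obtain ⟨δ, hδ⟩ : ∃ δ : ℝ, δ = η * εH / 100 := ⟨_, rfl⟩
  rw [← hδ] at hexp
  have hδ0 : 0 < δ := by rw [hδ]; positivity
  have hδη : δ ≤ η / 100 := by
    rw [hδ]; have := mul_le_of_le_one_right hη.le hεH1; linarith
  obtain ⟨dev, hdev⟩ : ∃ dev : ℝ, dev = δ * n := ⟨_, rfl⟩
  have hdev0 : 0 < dev := by rw [hdev]; positivity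
  have hdev1 : dev ≤ η * n / 100 := by
    rw [hdev]; have := mul_le_mul_of_nonneg_right hδη hn0.le; linarith
  have hdev2 : ∀ x ∈ D.U, dev ≤ η * (D.C x).card / 100 := fun x hx => by
    have := mul_le_mul_of_nonneg_left (hC x hx) hη.le
    rw [hdev, hδ]; linarith
  have hdev3 : ∀ x ∈ D.U, η * (D.C x).card ≤ (D.C x).card / 5000000 := fun x hx => by
    have := mul_le_mul_of_nonneg_right hη1 (Nat.cast_nonneg (α := ℝ) (D.C x).card)
    linarith
  have hηn1 : η * n ≤ n / 5000000 := by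
    have := mul_le_mul_of_nonneg_right hη1 hn0.le
    linarith
  have hexp' : ∀ (k : ℕ) (c : ℝ), (k : ℝ) ≤ n → c ≤ 9 * n ^ 2 + n ^ r →
      c < Real.exp (δ / 2 * dev - (δ / 2) ^ 2 * k) := by
    intro k c hk hc
    refine lt_of_le_of_lt hc (lt_of_lt_of_le hexp (Real.exp_le_exp.2 ?_))
    rw [hdev]
    nlinarith [mul_le_mul_of_nonneg_left hk (sq_nonneg δ)]
  have hl0 : 0 < δ / 2 := by linarith
  have hl1 : δ / 2 ≤ 1 := by linarith
  -- the separator
  obtain ⟨t, φ, kind, nru, htS, hinj, hφt, hedge, hk, hk1, hk03, hk3, hnru, hM0, hM, hcut, hbad⟩ :=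
    stage1 D H u hu hcard a ha0 (by
      have : (1000 : ℝ) * D.S.card ≤ n := by linarith
      rw [hn] at this
      exact_mod_cast this) hZpos N.hbulk N.hmed
  rw [← hn] at hcut hbad
  -- the pairs
  have hXm : ((D.Ro 1).card : ℝ) ≤ m := by rw [hm]; exact_mod_cast D.card_X_le
  have hFc : (D.S.image φ).card = D.S.card := card_image_of_injOn hinj
  obtain ⟨pa, pb, hai, hbi, hab, hF, hpt, hpW⟩ := pairs H (D.Ro 1) D.lab (D.S.image φ) D.b1 (!D.b2) r
    (δ / 2) dev u (by
      rw [hFc]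
      have : (500 : ℝ) * (D.S.card + 2 * (D.Ro 1).card) ≤ n := by linarith
      rw [hn] at this
      exact_mod_cast this) hl0 hl1 (by
      rw [← hn]
      refine hexp' _ _ (by linarith) ?_
      have : ((D.Ro 1).card : ℝ) * n ≤ n * n := mul_le_mul_of_nonneg_right (by linarith) hn0.le
      have e1 := mul_pos hn0 hn0
      linarith)
  have hCX : ∀ x0 ∈ D.Ro 1, ((D.Ro 1).filter fun x => D.lab x = D.lab x0) = D.C x0 := by
    intro x0 hx0
    obtain ⟨h1, h2⟩ := D.mem_Ro.1 hx0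
    ext x
    simp only [mem_filter, D.mem_Ro, D.mem_C]
    exact ⟨fun h => ⟨h.1.1, h.2⟩, fun h => ⟨⟨h.1, D.l_role x h.1 x0 h1 h.2 ▸ h2⟩, h.2⟩⟩
  set V0 : Finset β := univ \ (D.S.image φ ∪ (D.Ro 1).image pa ∪ (D.Ro 1).image pb) with hV0
  obtain ⟨N0, hN0⟩ : ∃ N0 : ℝ, N0 = (V0.card : ℝ) := ⟨_, rfl⟩
  have hV0c : N0 + D.S.card + 2 * (D.Ro 1).card = n := by
    have e : V0.card + (D.S.card + (D.Ro 1).card + (D.Ro 1).card) = Fintype.card β := by
      rw [← card_univ, ← card_sdiff_add_card_eq_card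
        (subset_univ (D.S.image φ ∪ (D.Ro 1).image pa ∪ (D.Ro 1).image pb)), card_union_of_disjoint,
        card_union_of_disjoint, hFc, card_image_of_injOn hai, card_image_of_injOn hbi]
      · rw [disjoint_right]
        intro v hv
        obtain ⟨x, hx, rfl⟩ := mem_image.1 hv
        exact (hF x hx).1
      · rw [disjoint_right]
        intro v hv hv'
        obtain ⟨x, hx, rfl⟩ := mem_image.1 hv
        rcases mem_union.1 hv' with h | h
        · exact (hF x hx).2 h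
        · obtain ⟨x', hx', e⟩ := mem_image.1 h
          exact hab x' hx' x hx e
    have e' : (V0.card : ℝ) + (D.S.card + (D.Ro 1).card + (D.Ro 1).card) = Fintype.card β := by
      exact_mod_cast e
    rw [hN0, hn]; linarith
  have hS0 : (0 : ℝ) ≤ D.S.card := Nat.cast_nonneg _
  have hX0 : (0 : ℝ) ≤ (D.Ro 1).card := Nat.cast_nonneg _
  have hG0 : (0 : ℝ) ≤ D.G.card := Nat.cast_nonneg _
  have hN0n : 0.999 * n ≤ N0 := by linarith
  have hN0n' : N0 ≤ n := by linarith
  have hN0p : 0 < N0 := by linarith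
  have hnon : ∀ b w, ((H.non b w).card : ℝ) ≤ 0.3354 * N0 := fun b w => by
    have := H.card_non b w
    rw [← hn] at this
    linarith
  -- the plan
  obtain ⟨κ, hκ⟩ : ∃ κ : ℝ, κ * N0 = (1 + η) * (D.Ro 0).card :=
    ⟨(1 + η) * (D.Ro 0).card / N0, by field_simp⟩
  obtain ⟨ω, hω0, hω1, hω2, hω3, hω4⟩ := plan (D.Ro 0) kind hk V0
    (fun y => H.non (T.dir y) (φ (T.p y))) nru (1 + η) κ (by linarith)
    (by rw [hN0] at hN0p; exact_mod_cast hN0p) hnru (fun x => hN0 ▸ hnon _ _) hM0 hM (hN0 ▸ hκ)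
    (hcut V0 (by rw [← hN0]; linarith))
  rw [← hN0] at hω4
  obtain ⟨ν, hν⟩ : ∃ ν : ℝ, ν = 1 - η - κ := ⟨_, rfl⟩
  have htot : n = D.S.card + D.G.card + ((D.Ro 0).card + (D.Ro 1).card + m + (D.Ro 1).card) := by
    have := D.card_total
    rw [← D.card_XY, hcard] at this
    rw [hn, hm]
    exact_mod_cast this
  have hNm : ((D.Ro 0).card : ℝ) ≤ n := by linarith
  have hNm0 : (0 : ℝ) ≤ (D.Ro 0).card := Nat.cast_nonneg _
  have hνN : ν * N0 = D.G.card + m - η * N0 - η * (D.Ro 0).card := by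
    rw [hν, sub_mul, hκ]; linarith
  have hν1 : 0.998 * m ≤ ν * N0 := by
    have e1 := mul_le_mul_of_nonneg_left hN0n' hη.le
    have e2 := mul_le_mul_of_nonneg_left hNm hη.le
    linarith
  have hν2 : ν * N0 ≤ m := by
    have e1 := mul_le_mul_of_nonneg_left hN0n hη.le
    have e2 := mul_nonneg hη.le hNm0
    linarith
  have hν0 : 0 ≤ ν := (mul_nonneg_iff_of_pos_right hN0p).1 (by linarith)
  let W : β → α ⊕ Bool → ℝ := fun v o =>
    match o with
    | Sum.inl x => if x ∈ D.Ro 0 then ω v x else 0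
    | Sum.inr c => if c then η else ν
  let Zn : α ⊕ Bool → Finset (α ⊕ Bool) := fun i =>
    match i with
    | Sum.inl x => (D.C x).map Function.Embedding.inl
    | Sum.inr c => {Sum.inr c}
  obtain ⟨g, hg1, hg2, hg3⟩ := rounding V0 (Sum.inr true) W
    (by
      rintro v (x | c) <;> simp only [W] <;> split_ifs
      · exact hω0 v x
      · exact le_rfl
      · exact hη.le
      · exact hν0)
    (by
      intro v hv
      rw [Fintype.sum_sum_type]
      simp only [W, sum_ite_mem_eq, hω1 v hv]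
      simp [hν]
      ring)
    Zn (fun k : β × Bool => H.non k.2 k.1) (δ / 2) dev hl0 hl1 (by
      refine hexp' _ _ (hN0 ▸ hN0n') ?_
      simp only [Fintype.card_sum, Fintype.card_bool, Fintype.card_prod, hcard]
      push_cast
      rw [← hn]
      have : 0 ≤ n ^ r := by positivity
      have e1 : n * 1 ≤ n * n := mul_le_mul_of_nonneg_left hn1 hn0.le
      linarith)
  have hgN : ∀ v ∈ V0, ∀ x, g v = Sum.inl x → x ∈ D.Ro 0 ∧ 0 < ω v x := by
    intro v hv x e
    have := hg1 v hv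
    rw [e] at this
    simp only [W] at this
    split_ifs at this with h
    · exact ⟨h, this⟩
    · exact absurd this (lt_irrefl _)
  have hZsum : ∀ x0 ∈ D.Ro 0, ∀ Q : Finset β, ∑ v ∈ Q, ∑ o ∈ Zn (Sum.inl x0), W v o
      = ∑ x ∈ D.C x0, ∑ v ∈ Q, ω v x := by
    intro x0 hx0 Q
    rw [sum_comm]
    simp only [Zn, sum_map]
    refine sum_congr rfl fun x hx => sum_congr rfl fun v _ => ?_
    have := D.C_sub (D.mem_Ro.1 hx0).1 hx
    rw [(D.mem_Ro.1 hx0).2] at this
    simp [W, this]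
  -- the colouring
  have : Nonempty α := ⟨T.r⟩
  let ainv : β → α := Function.invFunOn pa (D.Ro 1)
  have hainv : ∀ x ∈ D.Ro 1, ainv (pa x) = x := fun x hx => hai.leftInvOn_invFunOn hx
  let gz : α ⊕ Bool → Λ ⊕ ℕ := fun o =>
    match o with
    | Sum.inl x => Sum.inl (D.lab x)
    | Sum.inr c => Sum.inr (if c then 1 else 2)
  let o : β → Λ ⊕ ℕ := fun v => if v ∈ D.S.image φ then Sum.inr 0 else
    if v ∈ (D.Ro 1).image pb then Sum.inr 3 else
    if v ∈ (D.Ro 1).image pa then Sum.inl (D.lab (ainv v)) else gz (g v)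
  have o1 : ∀ s ∈ D.S, o (φ s) = Sum.inr 0 := fun s hs => by
    simp only [o, mem_image_of_mem φ hs, if_true]
  have o2 : ∀ x ∈ D.Ro 1, o (pb x) = Sum.inr 3 := fun x hx => by
    simp only [o, (hF x hx).2, mem_image_of_mem pb hx, if_true, if_false]
  have o3 : ∀ x ∈ D.Ro 1, o (pa x) = Sum.inl (D.lab x) := fun x hx => by
    have : pa x ∉ (D.Ro 1).image pb := fun h => by
      obtain ⟨x', hx', e⟩ := mem_image.1 h
      exact hab x hx x' hx' e.symm
    simp only [o, (hF x hx).1, this, mem_image_of_mem pa hx, if_true, if_false, hainv x hx]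
  have o4 : ∀ v ∈ V0, o v = gz (g v) := fun v hv => by
    have := (mem_sdiff.1 hv).2
    simp only [mem_union, not_or] at this
    simp only [o, this.1.1, this.1.2, this.2, if_false]
  have ocov : ∀ v, v ∈ V0 ∨ (∃ s ∈ D.S, φ s = v) ∨ (∃ x ∈ D.Ro 1, pa x = v) ∨ ∃ x ∈ D.Ro 1, pb x = v := by
    intro v
    by_cases h : v ∈ V0
    · exact Or.inl h
    · simp only [hV0, mem_sdiff, mem_univ, true_and, mem_union, mem_image, not_not, or_assoc] at h
      exact Or.inr h
  have F0 : ∀ x0 ∈ D.Ro 0, fib o (Sum.inl (D.lab x0)) = V0.filter fun v => g v ∈ Zn (Sum.inl x0) := by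
    intro x0 hx0
    obtain ⟨h1, h2⟩ := D.mem_Ro.1 hx0
    ext v
    rw [mem_fib, mem_filter]
    constructor
    · intro h
      rcases ocov v with hv | ⟨s, hs, rfl⟩ | ⟨x, hx, rfl⟩ | ⟨x, hx, rfl⟩
      · refine ⟨hv, ?_⟩
        rw [o4 v hv] at h
        rcases e : g v with x | c
        · rw [e] at h
          simp only [gz, Sum.inl.injEq] at h
          simp only [Zn, mem_map]
          exact ⟨x, D.mem_C.2 ⟨(D.mem_Ro.1 (hgN v hv x e).1).1, h⟩, rfl⟩
        · rw [e] at h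
          simp [gz] at h
      · rw [o1 s hs] at h; simp at h
      · rw [o3 x hx] at h
        have := D.l_role x (D.mem_Ro.1 hx).1 x0 h1 (Sum.inl.inj h)
        rw [(D.mem_Ro.1 hx).2, h2] at this
        omega
      · rw [o2 x hx] at h; simp at h
    · rintro ⟨hv, h⟩
      simp only [Zn, mem_map] at h
      obtain ⟨x, hx, e⟩ := h
      rw [o4 v hv, ← e]
      simp [gz, (D.mem_C.1 hx).2]
  have F1 : ∀ x0 ∈ D.Ro 1, fib o (Sum.inl (D.lab x0)) = (D.C x0).image pa := by
    intro x0 hx0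
    obtain ⟨h1, h2⟩ := D.mem_Ro.1 hx0
    ext v
    rw [mem_fib, mem_image]
    constructor
    · intro h
      rcases ocov v with hv | ⟨s, hs, rfl⟩ | ⟨x, hx, rfl⟩ | ⟨x, hx, rfl⟩
      · rw [o4 v hv] at h
        rcases e : g v with x | c
        · rw [e] at h
          simp only [gz, Sum.inl.injEq] at h
          have h3 := D.mem_Ro.1 (hgN v hv x e).1
          have := D.l_role x h3.1 x0 h1 h
          omega
        · rw [e] at h
          simp [gz] at h
      · rw [o1 s hs] at h; simp at h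
      · rw [o3 x hx] at h
        exact ⟨x, D.mem_C.2 ⟨(D.mem_Ro.1 hx).1, Sum.inl.inj h⟩, rfl⟩
      · rw [o2 x hx] at h; simp at h
    · rintro ⟨x, hx, rfl⟩
      have := D.C_sub h1 hx
      rw [h2] at this
      rw [o3 x this, (D.mem_C.1 hx).2]
  have F2 : ∀ c : Bool, fib o (Sum.inr (if c then 1 else 2)) = V0.filter fun v => g v ∈ Zn (Sum.inr c) := by
    intro c
    ext v
    rw [mem_fib, mem_filter]
    constructor
    · intro h
      rcases ocov v with hv | ⟨s, hs, rfl⟩ | ⟨x, hx, rfl⟩ | ⟨x, hx, rfl⟩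
      · refine ⟨hv, ?_⟩
        rw [o4 v hv] at h
        rcases e : g v with x | c'
        · rw [e] at h
          simp [gz] at h
        · rw [e] at h
          cases c <;> cases c' <;> simp [gz, Zn] at h ⊢
      · rw [o1 s hs] at h; cases c <;> simp at h
      · rw [o3 x hx] at h; simp at h
      · rw [o2 x hx] at h; cases c <;> simp at h
    · rintro ⟨hv, h⟩
      simp only [Zn, mem_singleton] at h
      rw [o4 v hv, h]
  have hsubX : ∀ x0 ∈ D.Ro 1, D.C x0 ⊆ D.Ro 1 := fun x0 hx0 => by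
    have := D.C_sub (D.mem_Ro.1 hx0).1
    rwa [(D.mem_Ro.1 hx0).2] at this
  have hsub0 : ∀ x0 ∈ D.Ro 0, D.C x0 ⊆ D.Ro 0 := fun x0 hx0 => by
    have := D.C_sub (D.mem_Ro.1 hx0).1
    rwa [(D.mem_Ro.1 hx0).2] at this
  have F1c : ∀ x0 ∈ D.Ro 1, (fib o (Sum.inl (D.lab x0))).card = (D.C x0).card := fun x0 hx0 => by
    rw [F1 x0 hx0, card_image_of_injOn (hai.mono (hsubX x0 hx0))]
  have size0 : ∀ x0 ∈ D.Ro 0, (1 + η) * (D.C x0).card - dev ≤ (fib o (Sum.inl (D.lab x0))).card := by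
    intro x0 hx0
    have := hg2 (Sum.inl x0)
    rw [hZsum x0 hx0, sum_congr rfl fun x hx => hω2 x (hsub0 x0 hx0 hx), sum_const, nsmul_eq_mul] at this
    rw [F0 x0 hx0]
    linarith
  have non0 : ∀ x0 ∈ D.Ro 0, ∀ c : ℝ, ∀ w b, (∀ x ∈ D.C x0, ∑ v ∈ V0 ∩ H.non b w, ω v x ≤ c) →
      ((fib o (Sum.inl (D.lab x0)) ∩ H.non b w).card : ℝ) ≤ c * (D.C x0).card + dev := by
    intro x0 hx0 c w b h
    have := hg3 (Sum.inl x0) (w, b)
    rw [hZsum x0 hx0] at this
    dsimp only at this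
    have e := sum_le_sum h
    rw [sum_const, nsmul_eq_mul] at e
    rw [F0 x0 hx0]
    linarith
  have sizeR : ∀ c : Bool, (if c then η else ν) * N0 - dev
      ≤ (fib o (Sum.inr (if c then 1 else 2))).card := by
    intro c
    have := hg2 (Sum.inr c)
    simp only [Zn, sum_singleton, W, sum_const, nsmul_eq_mul] at this
    rw [F2 c, hN0, mul_comm]
    exact this
  have nonR : ∀ c : Bool, ∀ w b, ((fib o (Sum.inr (if c then 1 else 2)) ∩ H.non b w).card : ℝ)
      ≤ (if c then η else ν) * (0.3354 * N0) + dev := by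
    intro c w b
    have := hg3 (Sum.inr c) (w, b)
    simp only [Zn, sum_singleton, W, sum_const, nsmul_eq_mul] at this
    rw [F2 c]
    refine this.trans (add_le_add ?_ le_rfl)
    rw [mul_comm]
    refine mul_le_mul_of_nonneg_left (le_trans ?_ (hnon b w)) (by split_ifs; exact hη.le; exact hν0)
    exact_mod_cast card_le_card inter_subset_right
  have hz1 : 0.99 * m ≤ (fib o (Sum.inr 2)).card := by
    have := sizeR false
    simp only [Bool.false_eq_true, if_false] at this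
    linarith
  have hz2 : ∀ w b, ((fib o (Sum.inr 2) ∩ H.non b w).card : ℝ) ≤ 0.337 * m := by
    intro w b
    have := nonR false w b
    simp only [Bool.false_eq_true, if_false] at this
    linarith
  refine ⟨⟨φ, o, fun v => pb (ainv v), o1, hinj, hedge, ?_, ?_, ?_, ?_, ?_, ?_, ?_, ?_, ?_, hm ▸ hz1,
    hm ▸ hz2, ?_⟩⟩
  · intro x hx h1 v hv
    have hx' := D.mem_Ro.2 ⟨hx, h1⟩
    rw [← mem_fib, F1 x hx'] at hv
    obtain ⟨y, hy, rfl⟩ := mem_image.1 hv
    rw [hainv y (hsubX x hx' hy)]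
    exact o2 y (hsubX x hx' hy)
  · intro x hx h1 x' hx' h1' v v' hv hv' e
    have k := D.mem_Ro.2 ⟨hx, h1⟩
    have k' := D.mem_Ro.2 ⟨hx', h1'⟩
    rw [← mem_fib, F1 x k] at hv
    rw [← mem_fib, F1 x' k'] at hv'
    obtain ⟨y, hy, rfl⟩ := mem_image.1 hv
    obtain ⟨y', hy', rfl⟩ := mem_image.1 hv'
    rw [hainv y (hsubX x k hy), hainv y' (hsubX x' k' hy')] at e
    rw [hbi (hsubX x k hy) (hsubX x' k' hy') e]
  · intro x hx h1
    by_cases h0 : D.role x = 0
    · have e1 := size0 x (D.mem_Ro.2 ⟨hx, h0⟩)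
      have e2 := hdev2 x hx
      have e3 : ((D.C x).card : ℝ) ≤ (fib o (Sum.inl (D.lab x))).card := by linarith
      exact_mod_cast e3
    · exact (F1c x (D.mem_Ro.2 ⟨hx, by omega⟩)).ge
  · intro x hx hp h0 w b
    have k := D.mem_Ro.2 ⟨hp, h0⟩
    have e1 := non0 _ k ((1 + η) * 0.5047) w b fun y hy => by
      obtain ⟨h1, h2⟩ := D.mem_C.1 hy
      obtain ⟨c, hc, hc', -⟩ := D.l_surj x hx hp y h1 h2
      have e := hω4 y (hsub0 _ k hy) (H.non b w) (hnon b w)
      rcases hk03 y ⟨c, hc, hc'⟩ with h | h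
      · exact e.1 h
      · have := e.2 h
        linarith
    have e2 := hdev2 _ hp
    have e3 := hdev3 _ hp
    linarith
  · intro x hx h1 w b
    have k := D.mem_Ro.2 ⟨hx, h1⟩
    have e1 := (hpt x k w b).2
    rw [hCX x k] at e1
    have e2 := hdev2 _ hx
    have e3 := hdev3 _ hx
    have e4 : ((fib o (Sum.inl (D.lab x))).filter fun v => pb (ainv v) ∈ H.non b w).card
        ≤ ((D.Ro 1).filter fun y => D.lab y = D.lab x ∧ pb y ∈ H.non b w).card := by
      refine card_le_card_of_surjOn pa ?_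
      intro v hv
      obtain ⟨h2, h3⟩ := mem_filter.1 (mem_coe.1 hv)
      rw [F1 x k] at h2
      obtain ⟨y, hy, rfl⟩ := mem_image.1 h2
      rw [hainv y (hsubX x k hy)] at h3
      exact ⟨y, mem_coe.2 (mem_filter.2 ⟨hsubX x k hy, (D.mem_C.1 hy).2, h3⟩), rfl⟩
    have e5 : (((fib o (Sum.inl (D.lab x))).filter fun v => pb (ainv v) ∈ H.non b w).card : ℝ)
        ≤ ((D.Ro 1).filter fun y => D.lab y = D.lab x ∧ pb y ∈ H.non b w).card := by
      exact_mod_cast e4
    have e6 : (0 : ℝ) ≤ (D.C x).card := Nat.cast_nonneg _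
    linarith
  · intro x hx h1 hH w b
    have e2 := hdev2 _ hx
    have e3 := hdev3 _ hx
    have e6 : (0 : ℝ) ≤ (D.C x).card := Nat.cast_nonneg _
    by_cases h0 : D.role x = 0
    · have k := D.mem_Ro.2 ⟨hx, h0⟩
      have e1 := non0 _ k ((1 + η) * 0.494) w b fun y hy => by
        obtain ⟨h1, h2⟩ := D.mem_C.1 hy
        exact (hω4 y (hsub0 _ k hy) (H.non b w) (hnon b w)).2
          (hk3 y fun h => hH (D.l_hub y h1 x hx h2 h ▸ h))
      have e4 := size0 x k
      have e5 := mul_nonneg hη.le e6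
      linarith
    · have k : x ∈ D.Ro 1 := D.mem_Ro.2 ⟨hx, by omega⟩
      have e1 := (hpt x k w b).1
      rw [hCX x k] at e1
      have e4 : (fib o (Sum.inl (D.lab x)) ∩ H.non b w).card
          ≤ ((D.Ro 1).filter fun y => D.lab y = D.lab x ∧ pa y ∈ H.non b w).card := by
        refine card_le_card_of_surjOn pa ?_
        intro v hv
        obtain ⟨h2, h3⟩ := mem_inter.1 (mem_coe.1 hv)
        rw [F1 x k] at h2
        obtain ⟨y, hy, rfl⟩ := mem_image.1 h2
        exact ⟨y, mem_coe.2 (mem_filter.2 ⟨hsubX x k hy, (D.mem_C.1 hy).2, h3⟩), rfl⟩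
      have e5 : ((fib o (Sum.inl (D.lab x)) ∩ H.non b w).card : ℝ)
          ≤ ((D.Ro 1).filter fun y => D.lab y = D.lab x ∧ pa y ∈ H.non b w).card := by
        exact_mod_cast e4
      rw [F1c x k]
      linarith
  · intro x hx hH v hv
    have k := D.mem_Ro.2 ⟨hx, D.role_zero hx (D.dSU _ (D.Hv_sub hH))⟩
    rw [← mem_fib, F0 x k] at hv
    obtain ⟨hv, h⟩ := mem_filter.1 hv
    simp only [Zn, mem_map] at h
    obtain ⟨y, hy, e⟩ := h
    obtain ⟨h1, h2⟩ := D.mem_C.1 hy
    have e1 := D.l_hub x hx y h1 h2.symm hH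
    by_cases ht : T.p x = t
    · rw [ht, hφt]
      apply hu
      rintro rfl
      exact (mem_sdiff.1 hv).2 (mem_union_left _ (mem_union_left _ (mem_image.2 ⟨t, htS, hφt⟩)))
    · have := hω3 v y (hk1 y (e1 ▸ hH) (e1 ▸ ht)) (hgN v hv y e.symm).2
      rw [H.mem_non, not_not, e1, D.l_dir y h1 x hx h2] at this
      exact this
  · intro x hx h1 h2
    have k := D.mem_Ro.2 ⟨hx, D.role_zero hx (D.dSU _ h1)⟩
    have e1 := size0 x k
    have e2 := hdev2 x hx
    have e3 := hCm x hx h1 h2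
    obtain ⟨Nx, hNx⟩ : ∃ Nx : ℝ, Nx = ((D.C x).card : ℝ) := ⟨_, rfl⟩
    have e4 := hbad x hx h1 h2 (0.0014 * (D.C x).card) (by positivity)
    rw [show 0.5046 * ((D.C x).card : ℝ) + 0.0014 * (D.C x).card = 0.506 * (D.C x).card by ring] at e4
    set Bd := (univ.filter fun v => 0.506 * ((D.C x).card : ℝ)
      < ((D.C x).filter fun y => ¬ H.R (T.dir y) (φ (T.p y)) v).card) with hBd
    rw [← hNx] at e1 e2 e3 e4
    have hNx0 : 0 < Nx := lt_of_lt_of_le (by positivity) e3
    have e5 : (εM * n) ^ 3 ≤ Nx ^ 3 := pow_le_pow_left₀ (by positivity) e3 3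
    have e6 : 100000 * a * n ^ 3 ≤ η * Nx ^ 3 := by
      calc _ ≤ η * εM ^ 3 * n ^ 3 := mul_le_mul_of_nonneg_right ha (by positivity)
        _ = η * (εM * n) ^ 3 := by ring
        _ ≤ _ := mul_le_mul_of_nonneg_left e5 hη.le
    have e7 : (Bd.card : ℝ) ≤ η * Nx / 2 := by
      by_contra h
      push Not at h
      have := mul_lt_mul_of_pos_right h (show 0 < (0.0014 * Nx) ^ 2 by positivity)
      have h3 : 0 < η * Nx ^ 3 := by positivity
      linarith
    have e8 : (Bd.card : ℝ) + (D.C x).card ≤ (fib o (Sum.inl (D.lab x))).card := by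
      rw [← hNx]
      have := mul_pos hη hNx0
      linarith
    exact_mod_cast e8
  · intro w w' b b'
    have e1 := sizeR true
    have e2 := nonR true w b
    have e3 := nonR true w' b'
    simp only [if_true] at e1 e2 e3
    have e4 := mul_le_mul_of_nonneg_left hN0n hη.le
    have e5 : (D.G.card : ℝ) + (fib o (Sum.inr 1) ∩ H.non b w).card
      + (fib o (Sum.inr 1) ∩ H.non b' w').card ≤ (fib o (Sum.inr 1)).card := by linarith
    exact_mod_cast e5
  · intro _ L hL1 hL2 P hP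
    refine final_pairs H D.b1 (!D.b2) r hr ((D.Ro 1).image pa) (fun v => pb (ainv v))
      (fib o (Sum.inr 2)) L m ?_ (by rw [hL2, hm]) hL1 hz1 hz2 ?_ P ?_
    · rw [card_image_of_injOn hai]; exact hXm
    · intro W'
      have e1 := hpW W'
      have e2 : (((D.Ro 1).image pa).filter fun v => H.miss D.b1 (!D.b2) W' v (pb (ainv v))).card
          ≤ ((D.Ro 1).filter fun x => H.miss D.b1 (!D.b2) W' (pa x) (pb x)).card := by
        refine card_le_card_of_surjOn pa ?_
        intro v hv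
        obtain ⟨h2, h3⟩ := mem_filter.1 (mem_coe.1 hv)
        obtain ⟨y, hy, rfl⟩ := mem_image.1 h2
        rw [hainv y hy] at h3
        exact ⟨y, mem_coe.2 (mem_filter.2 ⟨hy, h3⟩), rfl⟩
      have e3 : ((((D.Ro 1).image pa).filter
          fun v => H.miss D.b1 (!D.b2) W' v (pb (ainv v))).card : ℝ)
          ≤ ((D.Ro 1).filter fun x => H.miss D.b1 (!D.b2) W' (pa x) (pb x)).card := by
        exact_mod_cast e2
      have e4 : (0 : ℝ) ≤ (H.cnt D.b1 (!D.b2) W' : ℝ) / (Fintype.card β : ℝ) ^ 2 + 0.005 := by positivity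
      have e5 := mul_le_mul_of_nonneg_left hXm e4
      linarith
    · intro v hv
      obtain ⟨x, hx, h1, h2⟩ := hP v hv
      have k := D.mem_Ro.2 ⟨hx, h1⟩
      rw [← mem_fib, F1 x k] at h2
      exact image_subset_image (hsubX x k) h2


end Pool.Agent.MP_6f6f6b_co.B
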