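import Pool.Agent.MP_6f6f6b_co.B.Ineq

set_option autoImplicit false
set_option linter.unusedVariables false
set_option linter.unusedSectionVars false

open Finset
open scoped Classical

namespace Pool.Agent.MP_6f6f6b_co.B

/-- A host digraph seen through its two adjacency relations; every vertex has at most
`0.335 n` non-neighbours, in each direction. -/
structure Host (β : Type) [Fintype β] where
  R : Bool → β → β → Prop
  symm : ∀ b x y, R b x y ↔ R (!b) y x
  deg : ∀ b x, 1000 * (univ.filter fun y => ¬ R b x y).card ≤ 335 * Fintype.card β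

/-- An embedding of the tree in the host. -/
def Emb {α β : Type} [Fintype β] (T : RTree α) (H : Host β) (φ : α → β) : Prop :=
  Function.Injective φ ∧ ∀ v, v ≠ T.r → H.R (T.dir v) (φ (T.p v)) (φ v)

namespace Host

variable {β : Type} [Fintype β] (H : Host β)

/-- Non-neighbours. -/
noncomputable def non (b : Bool) (x : β) : Finset β := univ.filter fun y => ¬ H.R b x y

theorem mem_non {b : Bool} {x y : β} : y ∈ H.non b x ↔ ¬ H.R b x y := by simp [non]

theorem mem_non' {b : Bool} {x y : β} : y ∈ H.non (!b) x ↔ ¬ H.R b y x := by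
  rw [mem_non, H.symm b y x]

theorem card_non (b : Bool) (x : β) : ((H.non b x).card : ℝ) ≤ 0.335 * Fintype.card β := by
  have h := H.deg b x
  have : ((1000 * (H.non b x).card : ℕ) : ℝ) ≤ ((335 * Fintype.card β : ℕ) : ℝ) := by exact_mod_cast h
  push_cast at this
  linarith

theorem card_pos (x : β) : 0 < Fintype.card β := Fintype.card_pos_iff.2 ⟨x⟩

end Host

variable {α β : Type} [Fintype β]

/-- Indicator of non-adjacency. -/
noncomputable def Host.xi (H : Host β) (b : Bool) (y v : β) : ℝ := if H.R b y v then 0 else 1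

theorem Host.xi_nonneg (H : Host β) (b : Bool) (y v : β) : 0 ≤ H.xi b y v := by
  unfold Host.xi; split_ifs <;> norm_num

theorem Host.xi_le_one (H : Host β) (b : Bool) (y v : β) : H.xi b y v ≤ 1 := by
  unfold Host.xi; split_ifs <;> norm_num

theorem Host.sum_xi_right (H : Host β) (b : Bool) (y : β) :
    ∑ v, H.xi b y v ≤ 0.335 * Fintype.card β := by
  refine le_trans (le_of_eq ?_) (H.card_non b y)
  rw [Host.non, card_filter]
  push_cast
  refine sum_congr rfl fun v _ => ?_
  unfold Host.xi; split_ifs <;> simp_all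

theorem Host.sum_xi_left (H : Host β) (b : Bool) (v : β) (Ω : Finset β) :
    ∑ y ∈ Ω, H.xi b y v ≤ 0.335 * Fintype.card β := by
  refine le_trans (sum_le_sum_of_subset_of_nonneg (subset_univ Ω)
    fun y _ _ => H.xi_nonneg b y v) ?_
  refine le_trans (le_of_eq ?_) (H.sum_xi_right (!b) v)
  refine sum_congr rfl fun y _ => ?_
  unfold Host.xi
  rw [H.symm b y v]

theorem place_step (H : Host β) (Ω : Finset β) (m : Multiset ℝ) (x : β → ℝ) (x0 wt wf : ℝ)
    (hwt : 0 ≤ wt) (hwf : 0 ≤ wf) (hx : ∀ v, x0 ≤ x v)
    (hΩ : (wt + wf) * (0.335 * Fintype.card β) ≤ 0.5046 * (wt + wf) * Ω.card) :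
    ∑ y ∈ Ω, ∑ v, Gm m (x v + (wt * (H.xi true y v - 0.5046) + wf * (H.xi false y v - 0.5046)))
      ≤ Ω.card * (∑ v, Gm ((0.5046 * (wt + wf)) ::ₘ m) (x v) - Fintype.card β * (1696 / 5046) *
        (Gm ((0.5046 * (wt + wf)) ::ₘ m) x0 - Gm m (x0 - 0.5046 * (wt + wf)))) := by
  set e := 0.5046 * (wt + wf) with he
  have he0 : 0 ≤ e := by positivity
  set n : ℝ := (Fintype.card β : ℝ) with hn
  set d : β → β → ℝ := fun y v => wt * H.xi true y v + wf * H.xi false y v with hd
  set θ : β → β → ℝ := fun y v => d y v / (2 * e) with hθ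
  have hd0 : ∀ y v, 0 ≤ d y v := fun y v =>
    add_nonneg (mul_nonneg hwt (H.xi_nonneg _ _ _)) (mul_nonneg hwf (H.xi_nonneg _ _ _))
  have hd1 : ∀ y v, d y v ≤ 2 * e := fun y v => by
    have h1 := mul_le_of_le_one_right hwt (H.xi_le_one true y v)
    have h2 := mul_le_of_le_one_right hwf (H.xi_le_one false y v)
    simp only [hd, he]
    linarith
  have hθ0 : ∀ y v, 0 ≤ θ y v := fun y v => div_nonneg (hd0 y v) (by positivity)
  have hθ1 : ∀ y v, θ y v ≤ 1 := fun y v => div_le_one_of_le₀ (hd1 y v) (by positivity)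
  have hdθ : ∀ y v, d y v = θ y v * (2 * e) := fun y v => by
    rcases he0.eq_or_lt with h | h
    · have := hd1 y v
      have := hd0 y v
      rw [← h] at *
      linarith
    · simp only [hθ]; field_simp
  set Δ : β → ℝ := fun v => Gm m (x v + e) - Gm m (x v - e) with hΔ
  set Δ0 := Gm m (x0 + e) - Gm m (x0 - e) with hΔ0
  have hΔ1 : ∀ v, Δ0 ≤ Δ v := fun v => Gm_diff m x0 (x v) e (hx v) he0
  have hΔ2 : 0 ≤ Δ0 := sub_nonneg.2 (Gm_mono m (by linarith))
  have hA : ∀ v, ∑ y ∈ Ω, θ y v ≤ Ω.card / 2 := fun v => by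
    simp only [hθ]
    rw [← sum_div]
    apply div_le_of_le_mul₀ (by linarith) (div_nonneg (Nat.cast_nonneg _) zero_le_two)
    simp only [hd, sum_add_distrib, ← mul_sum]
    have h1 := mul_le_mul_of_nonneg_left (H.sum_xi_left true v Ω) hwt
    have h2 := mul_le_mul_of_nonneg_left (H.sum_xi_left false v Ω) hwf
    linarith
  have hB : ∀ y, ∑ v, θ y v ≤ n * (1675 / 5046) := fun y => by
    simp only [hθ]
    rw [← sum_div]
    apply div_le_of_le_mul₀ (by positivity) (by positivity)
    simp only [hd, sum_add_distrib, ← mul_sum]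
    have h1 := mul_le_mul_of_nonneg_left (H.sum_xi_right true y) hwt
    have h2 := mul_le_mul_of_nonneg_left (H.sum_xi_right false y) hwf
    rw [he]
    linarith
  have h1 : ∑ y ∈ Ω, ∑ v, Gm m (x v + (wt * (H.xi true y v - 0.5046) + wf * (H.xi false y v - 0.5046)))
      ≤ ∑ y ∈ Ω, ∑ v, (Gm (e ::ₘ m) (x v) - (1 / 2 - θ y v) * Δ v) := by
    refine sum_le_sum fun y _ => sum_le_sum fun v _ => ?_
    have := Gm_step m (x v) x0 e (d y v) (θ y v) he0 (hθ0 y v) (hθ1 y v) (hdθ y v)
    rw [show x v + (wt * (H.xi true y v - 0.5046) + wf * (H.xi false y v - 0.5046)) = x v - e + d y v by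
      simp only [he, hd]; ring]
    exact this
  refine h1.trans ?_
  rw [sum_comm]
  have h2 : ∑ v, ∑ y ∈ Ω, (Gm (e ::ₘ m) (x v) - (1 / 2 - θ y v) * Δ v)
      ≤ ∑ v, (Ω.card * Gm (e ::ₘ m) (x v) - (Ω.card / 2 - ∑ y ∈ Ω, θ y v) * Δ0) := by
    refine sum_le_sum fun v _ => ?_
    rw [sum_sub_distrib, ← sum_mul, sum_sub_distrib]
    simp only [sum_const, nsmul_eq_mul]
    have := mul_le_mul_of_nonneg_left (hΔ1 v) (sub_nonneg.2 (hA v))
    linarith
  refine h2.trans ?_
  rw [sum_sub_distrib, ← mul_sum, ← sum_mul, sum_sub_distrib, sum_comm]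
  simp only [sum_const, nsmul_eq_mul, card_univ]
  have h3 : ∑ y ∈ Ω, ∑ v, θ y v ≤ Ω.card * (n * (1675 / 5046)) := by
    refine (sum_le_sum fun y _ => hB y).trans (le_of_eq ?_)
    simp
  have h4 : Gm (e ::ₘ m) x0 - Gm m (x0 - e) = Δ0 / 2 := by rw [Gm_cons, hΔ0]; ring
  rw [h4, ← hn]
  nlinarith [mul_le_mul_of_nonneg_right h3 hΔ2]

/-- Placement of the separator set with control of second moments for two families of tests. -/
theorem placement (T : RTree α) (H : Host β) (u : β) (hu : ∀ b w, w ≠ u → H.R b u w)
    (S : Finset α) (t : α) (ht : t ∈ S) (hS : 1000 * S.card ≤ Fintype.card β)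
    {τ : Type} (Tst : Finset τ) (col : τ → Bool) (colS : α → Bool) (w : τ → α → Bool → ℝ)
    (hw : ∀ i s b, 0 ≤ w i s b) (hcol : ∀ i ∈ Tst, ∀ s b, col i ≠ colS s → w i s b = 0) :
    ∃ φ : α → β, Set.InjOn φ S ∧ φ t = u ∧
      (∀ s ∈ S, s ≠ T.r → T.p s ∈ S → H.R (T.dir s) (φ (T.p s)) (φ s)) ∧
      ∀ c, ∑ i ∈ Tst.filter (col · = c), ∑ v : β, (max (∑ s ∈ S.erase t,
          (w i s true * (H.xi true (φ s) v - 0.5046) + w i s false * (H.xi false (φ s) v - 0.5046))) 0) ^ 2
        ≤ 0.0845205 * Fintype.card β * ∑ i ∈ Tst.filter (col · = c),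
          ∑ s ∈ S.erase t, (w i s true + w i s false) ^ 2 := by
  set n : ℝ := (Fintype.card β : ℝ) with hn
  set E : τ → α → ℝ := fun i s => 0.5046 * (w i s true + w i s false) with hE
  set mR : τ → Finset α → Multiset ℝ := fun i A => (S.erase t \ A).val.map (E i) with hmR
  set xx : τ → (α → β) → Finset α → β → ℝ := fun i φ A v => ∑ s ∈ A,
    (w i s true * (H.xi true (φ s) v - 0.5046) + w i s false * (H.xi false (φ s) v - 0.5046)) with hxx
  have main : ∀ A : Finset α, A ⊆ S.erase t → ∃ φ : α → β, Set.InjOn φ (insert t A : Finset α) ∧ φ t = u ∧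
      (∀ s ∈ insert t A, s ≠ T.r → T.p s ∈ insert t A → H.R (T.dir s) (φ (T.p s)) (φ s)) ∧
      ∀ c, ∑ i ∈ Tst.filter (col · = c), ∑ v : β, Gm (mR i A) (xx i φ A v)
        ≤ ∑ i ∈ Tst.filter (col · = c), n * ((3350 / 5046) * Gm (mR i ∅) 0
            + (1696 / 5046) * Gm (mR i A) (-∑ s ∈ A, E i s)) := by
    intro A
    induction A using Finset.induction_on_max_value T.dep with
    | empty =>
      intro _
      refine ⟨fun _ => u, ?_, rfl, ?_, ?_⟩
      · simp
      · intro s hs hr hp
        simp only [insert_empty_eq, mem_singleton] at hs hp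
        have := T.dep_p s hr
        rw [hp, hs] at this
        omega
      · intro c
        refine sum_le_sum fun i _ => le_of_eq ?_
        simp only [hxx, sum_empty, neg_zero, sum_const, card_univ, nsmul_eq_mul, ← hn]
        ring
    | insert a A ha hmax ih =>
      intro hsub
      obtain ⟨φ, hinj, hφt, hedge, hpot⟩ := ih ((subset_insert _ _).trans hsub)
      have haS : a ∈ S.erase t := hsub (mem_insert_self _ _)
      have hat : a ≠ t := ne_of_mem_erase haS
      have haA : a ∉ insert t A := by simp [hat, ha]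
      set Ω : Finset β := (univ \ (insert t A).image φ) \ H.non (T.dir a) (φ (T.p a)) with hΩ
      have hΩc : 0.335 * n ≤ 0.5046 * Ω.card := by
        have h1 : ((insert t A).image φ).card ≤ S.card := by
          refine card_image_le.trans (card_le_card ?_)
          intro z hz
          rcases mem_insert.1 hz with rfl | hz
          · exact ht
          · exact mem_of_mem_erase (hsub (mem_insert_of_mem hz))
        have h2 := le_card_sdiff ((insert t A).image φ) (univ : Finset β)
        have h3 := le_card_sdiff (H.non (T.dir a) (φ (T.p a))) (univ \ (insert t A).image φ)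
        have h4 := H.card_non (T.dir a) (φ (T.p a))
        rw [card_univ] at h2
        have h5 : Fintype.card β ≤ Ω.card + (H.non (T.dir a) (φ (T.p a))).card + S.card := by
          rw [hΩ]; omega
        have h6 : n ≤ Ω.card + (H.non (T.dir a) (φ (T.p a))).card + S.card := by
          rw [hn]; exact_mod_cast h5
        have h7 : (1000 : ℝ) * S.card ≤ n := by rw [hn]; exact_mod_cast hS
        linarith
      have hnpos : 0 < n := by rw [hn]; exact_mod_cast Host.card_pos u
      have hΩne : Ω.Nonempty := by
        rw [← card_pos]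
        have : (0 : ℝ) < Ω.card := by linarith
        exact_mod_cast this
      have hmR' : ∀ i, mR i A = E i a ::ₘ mR i (insert a A) := by
        intro i
        simp only [hmR]
        rw [← Multiset.map_cons]
        congr 1
        have : S.erase t \ A = insert a (S.erase t \ insert a A) := by
          ext z
          simp only [mem_sdiff, mem_insert]
          constructor
          · rintro ⟨h1, h2⟩
            by_cases hz : z = a
            · exact Or.inl hz
            · exact Or.inr ⟨h1, by simp [hz, h2]⟩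
          · rintro (rfl | ⟨h1, h2⟩)
            · exact ⟨haS, ha⟩
            · exact ⟨h1, fun h => h2 (Or.inr h)⟩
        rw [this, insert_val_of_notMem (by simp)]
      have hxx' : ∀ i y v, xx i (Function.update φ a y) (insert a A) v = xx i φ A v +
          (w i a true * (H.xi true y v - 0.5046) + w i a false * (H.xi false y v - 0.5046)) := by
        intro i y v
        simp only [hxx]
        rw [sum_insert ha, Function.update_self, add_comm]
        congr 1
        refine sum_congr rfl fun s hs => ?_
        rw [Function.update_of_ne (by rintro rfl; exact ha hs)]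
      have hlow : ∀ i v, -∑ s ∈ A, E i s ≤ xx i φ A v := by
        intro i v
        simp only [hxx, hE]
        rw [← sum_neg_distrib]
        refine sum_le_sum fun s _ => ?_
        have h1 := mul_nonneg (hw i s true) (H.xi_nonneg true (φ s) v)
        have h2 := mul_nonneg (hw i s false) (H.xi_nonneg false (φ s) v)
        linarith
      -- the bound after one step, for any admissible set of choices
      have hstep : ∀ (c : Bool) (Ω' : Finset β),
          (∀ i ∈ Tst.filter (col · = c), (w i a true + w i a false) * (0.335 * n)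
            ≤ 0.5046 * (w i a true + w i a false) * Ω'.card) →
          ∑ y ∈ Ω', ∑ i ∈ Tst.filter (col · = c), ∑ v : β,
            Gm (mR i (insert a A)) (xx i (Function.update φ a y) (insert a A) v)
          ≤ ∑ y ∈ Ω', ∑ i ∈ Tst.filter (col · = c), n * ((3350 / 5046) * Gm (mR i ∅) 0
            + (1696 / 5046) * Gm (mR i (insert a A)) (-∑ s ∈ insert a A, E i s)) := by
        intro c Ω' hc
        rw [sum_comm]
        simp only [hxx']
        have h1 : ∀ i ∈ Tst.filter (col · = c), ∑ y ∈ Ω', ∑ v : β, Gm (mR i (insert a A)) (xx i φ A v +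
            (w i a true * (H.xi true y v - 0.5046) + w i a false * (H.xi false y v - 0.5046)))
            ≤ Ω'.card * (∑ v, Gm (mR i A) (xx i φ A v) - n * (1696 / 5046) *
              (Gm (mR i A) (-∑ s ∈ A, E i s) - Gm (mR i (insert a A)) (-∑ s ∈ insert a A, E i s))) := by
          intro i hi
          have := place_step H Ω' (mR i (insert a A)) (xx i φ A) (-∑ s ∈ A, E i s) _ _
            (hw i a true) (hw i a false) (hlow i) (hc i hi)
          rw [hmR' i, sum_insert ha, show -(E i a + ∑ s ∈ A, E i s) = -∑ s ∈ A, E i s - E i a by ring]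
          exact this
        refine (sum_le_sum h1).trans ?_
        rw [← mul_sum, sum_const, nsmul_eq_mul]
        refine mul_le_mul_of_nonneg_left ?_ (Nat.cast_nonneg _)
        rw [sum_sub_distrib]
        have h2 := hpot c
        have h3 : ∑ i ∈ Tst.filter (col · = c), n * ((3350 / 5046) * Gm (mR i ∅) 0
            + (1696 / 5046) * Gm (mR i (insert a A)) (-∑ s ∈ insert a A, E i s))
            = ∑ i ∈ Tst.filter (col · = c), n * ((3350 / 5046) * Gm (mR i ∅) 0
              + (1696 / 5046) * Gm (mR i A) (-∑ s ∈ A, E i s))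
              - ∑ i ∈ Tst.filter (col · = c), n * (1696 / 5046) *
              (Gm (mR i A) (-∑ s ∈ A, E i s) - Gm (mR i (insert a A)) (-∑ s ∈ insert a A, E i s)) := by
          rw [← sum_sub_distrib]
          exact sum_congr rfl fun i _ => by ring
        linarith
      obtain ⟨y, hy, hyle⟩ := exists_le_of_sum_le hΩne (hstep (colS a) Ω fun i _ => by
        have := mul_le_mul_of_nonneg_left hΩc (add_nonneg (hw i a true) (hw i a false))
        linarith)
      have hy1 : y ∉ (insert t A).image φ := (mem_sdiff.1 (mem_sdiff.1 hy).1).2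
      have hy2 : H.R (T.dir a) (φ (T.p a)) y := by
        have := (mem_sdiff.1 hy).2
        rwa [H.mem_non, not_not] at this
      have hupd : ∀ s ∈ insert t A, Function.update φ a y s = φ s := fun s hs =>
        Function.update_of_ne (by rintro rfl; exact haA hs) _ _
      have hins : insert t (insert a A) = insert a (insert t A) := insert_comm _ _ _
      refine ⟨Function.update φ a y, ?_, ?_, ?_, ?_⟩
      · rw [hins, coe_insert]
        rw [Set.injOn_insert (by exact_mod_cast haA)]
        constructor
        · intro s hs s' hs' h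
          rw [hupd s hs, hupd s' hs'] at h
          exact hinj hs hs' h
        · rintro ⟨s, hs, h⟩
          rw [hupd s hs, Function.update_self] at h
          exact hy1 (mem_image.2 ⟨s, hs, h⟩)
      · rw [hupd t (mem_insert_self _ _), hφt]
      · rw [hins]
        intro s hs hr hp
        have hdep := T.dep_p s hr
        rcases mem_insert.1 hs with rfl | hs
        · have hp' : T.p s ∈ insert t A := by
            rcases mem_insert.1 hp with h | h
            · rw [h] at hdep; omega
            · exact h
          rw [hupd _ hp', Function.update_self]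
          exact hy2
        · rcases mem_insert.1 hp with h | h
          · rcases mem_insert.1 hs with rfl | hs'
            · rw [h, Function.update_self, hupd s hs, hφt, H.symm]
              apply hu
              rintro rfl
              exact hy1 (mem_image.2 ⟨s, hs, hφt⟩)
            · have := hmax s hs'
              rw [h] at hdep
              omega
          · rw [hupd _ h, hupd _ hs]
            exact hedge s hs hr h
      · intro c
        by_cases hc : c = colS a
        · rw [hc]; exact hyle
        · have := hstep c {y} fun i hi => by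
            have hi' := mem_filter.1 hi
            have hne : col i ≠ colS a := by rw [hi'.2]; exact hc
            rw [hcol i hi'.1 a true hne, hcol i hi'.1 a false hne]
            simp
          simpa using this
  obtain ⟨φ, hinj, hφt, hedge, hpot⟩ := main (S.erase t) Subset.rfl
  rw [insert_erase ht] at hinj hedge
  refine ⟨φ, hinj, hφt, hedge, fun c => ?_⟩
  have h1 := hpot c
  have hz : ∀ i, mR i (S.erase t) = 0 := fun i => by simp [hmR]
  simp only [hz, Gm_zero] at h1
  refine h1.trans (le_of_eq ?_)
  rw [mul_sum]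
  refine sum_congr rfl fun i _ => ?_
  have h2 : max (-∑ s ∈ S.erase t, E i s) 0 = 0 := by
    apply max_eq_right
    rw [neg_nonpos]
    exact sum_nonneg fun s _ => by
      have := hw i s true
      have := hw i s false
      simp only [hE]; positivity
  have h3 := Gm_sym (mR i ∅) 0
  rw [neg_zero] at h3
  have h4 : ((mR i ∅).map (· ^ 2)).sum = 0.5046 ^ 2 * ∑ s ∈ S.erase t, (w i s true + w i s false) ^ 2 := by
    simp only [hmR, sdiff_empty, Multiset.map_map, mul_sum]
    rw [Finset.sum]
    congr 1
    refine Multiset.map_congr rfl fun s _ => ?_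
    simp only [Function.comp, hE]
    ring
  rw [h2]
  have h5 : Gm (mR i ∅) 0 = 0.5046 ^ 2 * (∑ s ∈ S.erase t, (w i s true + w i s false) ^ 2) / 2 := by
    rw [← h4]; linarith
  rw [h5]
  ring


theorem sum_xi_eq (H : Host β) (X : Finset β) (b : Bool) (y : β) :
    ∑ v ∈ X, H.xi b y v = X.card - (X \ H.non b y).card := by
  have h1 := card_sdiff_add_card_inter X (H.non b y)
  have h2 : (((X \ H.non b y).card + (X ∩ H.non b y).card : ℕ) : ℝ) = X.card := by exact_mod_cast h1
  push_cast at h2
  have h3 : ∑ v ∈ X, H.xi b y v = (X ∩ H.non b y).card := by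
    rw [← filter_mem_eq_inter, card_filter]
    push_cast
    refine sum_congr rfl fun v _ => ?_
    simp only [Host.xi, H.mem_non]
    split_ifs <;> rfl
  linarith

theorem sum_xi_eq' (H : Host β) (T : RTree α) (φ : α → β) (Y : Finset α) (v : β) :
    ∑ y ∈ Y, H.xi (T.dir y) (φ (T.p y)) v = (Y.filter fun y => ¬ H.R (T.dir y) (φ (T.p y)) v).card := by
  rw [card_filter]
  push_cast
  refine sum_congr rfl fun y _ => ?_
  simp only [Host.xi]
  split_ifs <;> rfl

theorem hub_place (T : RTree α) (H : Host β) (u : β) (hu : ∀ b w, w ≠ u → H.R b u w)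
    (S Hv : Finset α) (hHv : Hv ⊆ S) (t : α) (ht : t ∈ Hv) (hS : 1000 * S.card ≤ Fintype.card β)
    (Rr Ll : Finset α) (hR : ∀ y ∈ Rr, T.p y ∈ Hv.erase t) (hL : ∀ y ∈ Ll, T.p y ∈ Hv.erase t)
    (nru nlu nM Nn : ℝ) (h1 : 0 ≤ nru) (h2 : 0 ≤ nlu) (hNn : 0 < Nn)
    (hsum : Rr.card + Ll.card + nlu + nM = Nn) (hM : 0.995 * (Rr.card + 2 * nru) ≤ nM)
    (hmax : ∀ h, ((Rr.filter fun y => T.p y = h).card : ℝ)
      + 2 * (Ll.filter fun y => T.p y = h).card ≤ nru + 2 * nlu)
    {τ : Type} (Tst : Finset τ) (Cm : τ → Finset α)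
    (hCm : ∀ i ∈ Tst, ∀ y ∈ Cm i, T.p y ∈ S ∧ T.p y ∉ Hv) (B Tot : ℝ) (hB0 : 0 ≤ B)
    (hB : ∀ i ∈ Tst, ∀ s, (((Cm i).filter fun y => T.p y = s).card : ℝ) ≤ B)
    (hTot : ∑ i ∈ Tst, ((Cm i).card : ℝ) ≤ Tot) :
    ∃ φ : α → β, Set.InjOn φ S ∧ φ t = u ∧
      (∀ s ∈ S, s ≠ T.r → T.p s ∈ S → H.R (T.dir s) (φ (T.p s)) (φ s)) ∧
      (∀ V0 : Finset β, (Fintype.card β : ℝ) ≤ 1.0011 * V0.card → ∀ X ⊆ V0, X.Nonempty →
        (X.card : ℝ) / V0.card * Nn ≤ 0.4 * nru + nlu
          + min (nM - 0.4 * nru) ((0.494 * nM - 0.4 * nru) / 0.3354 * (X.card / V0.card))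
          + ∑ y ∈ Rr, min 1 (((X \ H.non (T.dir y) (φ (T.p y))).card : ℝ) / (0.6646 * V0.card))
          + (Ll.filter fun y => (X \ H.non (T.dir y) (φ (T.p y))).Nonempty).card) ∧
      ∀ i ∈ Tst, ∀ θ : ℝ, 0 ≤ θ → ((univ.filter fun v => 0.5046 * ((Cm i).card : ℝ) + θ
          < ((Cm i).filter fun y => ¬ H.R (T.dir y) (φ (T.p y)) v).card).card : ℝ) * θ ^ 2
        ≤ 0.0845205 * Fintype.card β * (B * Tot) := by
  set n : ℝ := (Fintype.card β : ℝ) with hn
  have hn0 : 0 < n := by rw [hn]; exact_mod_cast Host.card_pos u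
  have hRc : (0 : ℝ) ≤ Rr.card := Nat.cast_nonneg _
  have hLc : (0 : ℝ) ≤ Ll.card := Nat.cast_nonneg _
  obtain ⟨c, hc0, hc⟩ := ineq (Rr.card / Nn) (Ll.card / Nn) (nru / Nn) (nlu / Nn) (nM / Nn)
    (by positivity) (by positivity) (by positivity) (by positivity)
    (by field_simp; linarith)
    (by rw [le_div_iff₀ hNn]
        refine le_trans (le_of_eq ?_) hM
        field_simp)
  let w : Option τ → α → Bool → ℝ := fun i s b =>
    match i with
    | none => (1.504 * cpd T Rr s b + c * cpd T Ll s b) / Nn
    | some i => cpd T (Cm i) s b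
  have hR' : ∀ y ∈ Rr, T.p y ∈ S.erase t := fun y hy => erase_subset_erase t hHv (hR y hy)
  have hL' : ∀ y ∈ Ll, T.p y ∈ S.erase t := fun y hy => erase_subset_erase t hHv (hL y hy)
  have hCm' : ∀ i ∈ Tst, ∀ y ∈ Cm i, T.p y ∈ S.erase t := fun i hi y hy =>
    mem_erase.2 ⟨fun h => (hCm i hi y hy).2 (h ▸ ht), (hCm i hi y hy).1⟩
  obtain ⟨φ, hinj, hφt, hedge, hpot⟩ := placement T H u hu S t (hHv ht) hS
    (insertNone Tst) Option.isNone (fun s => decide (s ∈ Hv)) w
    (by
      intro i s b
      cases i with
      | none =>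
        have := cpd_nonneg T Rr s b
        have := cpd_nonneg T Ll s b
        simp only [w]; positivity
      | some i => exact cpd_nonneg _ _ _ _)
    (by
      intro i hi s b hne
      cases i with
      | none =>
        have hs : s ∉ Hv := by simpa using hne
        simp only [w]
        rw [cpd_zero T Rr s b fun y hy h => hs (h ▸ mem_of_mem_erase (hR y hy)),
          cpd_zero T Ll s b fun y hy h => hs (h ▸ mem_of_mem_erase (hL y hy))]
        simp
      | some i =>
        have hs : s ∈ Hv := by simpa using hne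
        have hi' : i ∈ Tst := by simpa using hi
        exact cpd_zero T _ s b fun y hy h => (hCm i hi' y hy).2 (h ▸ hs))
  refine ⟨φ, hinj, hφt, hedge, ?_, ?_⟩
  · intro V0 hV0 X hX hXne
    set N0 : ℝ := (V0.card : ℝ) with hN0
    have hN0p : 0 < N0 := by linarith
    have hXc : (0 : ℝ) < X.card := by exact_mod_cast card_pos.2 hXne
    have hXV : (X.card : ℝ) ≤ N0 := by rw [hN0]; exact_mod_cast card_le_card hX
    set e : α → ℝ := fun y => ((X \ H.non (T.dir y) (φ (T.p y))).card : ℝ) with he
    have he0 : ∀ y, 0 ≤ e y := fun y => Nat.cast_nonneg _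
    have he1 : ∀ y, e y ≤ X.card := fun y => by
      simp only [he]; exact_mod_cast card_le_card sdiff_subset
    have he2 : ∀ y, X.card - 0.3354 * N0 ≤ e y := fun y => by
      have k1 := le_card_sdiff (H.non (T.dir y) (φ (T.p y))) X
      have k2 : X.card ≤ (X \ H.non (T.dir y) (φ (T.p y))).card
        + (H.non (T.dir y) (φ (T.p y))).card := by omega
      have k3 : (X.card : ℝ) ≤ e y + (H.non (T.dir y) (φ (T.p y))).card := by
        simp only [he]; exact_mod_cast k2
      have k4 := H.card_non (T.dir y) (φ (T.p y))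
      linarith
    have hp := hpot true
    have hf : (insertNone Tst).filter (fun i => i.isNone = true) = {none} := by
      ext i; cases i <;> simp
    rw [hf, sum_singleton, sum_singleton] at hp
    set xv : β → ℝ := fun v => ∑ s ∈ S.erase t,
      (w none s true * (H.xi true (φ s) v - 0.5046) + w none s false * (H.xi false (φ s) v - 0.5046))
      with hxv
    have hxv' : ∀ v, xv v = (1.504 * ∑ y ∈ Rr, (H.xi (T.dir y) (φ (T.p y)) v - 0.5046)
        + c * ∑ y ∈ Ll, (H.xi (T.dir y) (φ (T.p y)) v - 0.5046)) / Nn := by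
      intro v
      rw [← sum_by_parent T Rr _ hR' fun s b => H.xi b (φ s) v - 0.5046,
        ← sum_by_parent T Ll _ hL' fun s b => H.xi b (φ s) v - 0.5046, mul_sum, mul_sum,
        ← sum_add_distrib, sum_div]
      refine sum_congr rfl fun s _ => ?_
      simp only [w]
      ring
    have hsumx : ∑ v ∈ X, xv v = (1.504 * (0.4954 * Rr.card * X.card - ∑ y ∈ Rr, e y)
        + c * (0.4954 * Ll.card * X.card - ∑ y ∈ Ll, e y)) / Nn := by
      simp only [hxv']
      rw [← sum_div, sum_add_distrib, ← mul_sum, ← mul_sum, sum_comm, sum_comm (s := X)]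
      simp only [sum_sub_distrib, sum_xi_eq, sum_const, nsmul_eq_mul, he]
      ring
    have hw2 : ∑ s ∈ S.erase t, (w none s true + w none s false) ^ 2
        ≤ (nru / Nn + 2 * (nlu / Nn)) * (2.262016 * (Rr.card / Nn) + c ^ 2 * (Ll.card / Nn) / 2) := by
      rw [← sum_cnt T Rr _ hR', ← sum_cnt T Ll _ hL', sum_div, sum_div, mul_sum, mul_sum, sum_div,
        ← sum_add_distrib, mul_sum]
      refine sum_le_sum fun s _ => ?_
      have k1 := hmax s
      have k2 : w none s true + w none s false = 1.504 * ((Rr.filter fun y => T.p y = s).card / Nn)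
          + c * ((Ll.filter fun y => T.p y = s).card / Nn) := by
        simp only [w]
        rw [← cpd_add, ← cpd_add]
        ring
      rw [k2]
      have k3 : ((Rr.filter fun y => T.p y = s).card / Nn : ℝ)
          + 2 * ((Ll.filter fun y => T.p y = s).card / Nn) ≤ nru / Nn + 2 * (nlu / Nn) := by
        have := div_le_div_of_nonneg_right k1 hNn.le
        refine le_trans (le_of_eq ?_) (this.trans (le_of_eq ?_)) <;> ring
      have k4 : (0 : ℝ) ≤ (Rr.filter fun y => T.p y = s).card / Nn := by positivity
      have k5 : (0 : ℝ) ≤ (Ll.filter fun y => T.p y = s).card / Nn := by positivity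
      set a : ℝ := (Rr.filter fun y => T.p y = s).card / Nn
      set l : ℝ := (Ll.filter fun y => T.p y = s).card / Nn
      have k6 : 0 ≤ 2.262016 * a + c ^ 2 * l / 2 := by positivity
      refine le_trans ?_ (mul_le_mul_of_nonneg_right k3 k6)
      nlinarith [mul_nonneg (mul_nonneg k4 k5) (sq_nonneg (c - 3.008))]
    have key := hc (X.card / N0) ((∑ y ∈ Rr, min 1 (e y / (0.6646 * N0))) / Nn)
      ((Ll.filter fun y => (X \ H.non (T.dir y) (φ (T.p y))).Nonempty).card / Nn)
      ((∑ y ∈ Rr, e y) / (N0 * Nn)) ((∑ y ∈ Ll, e y) / (N0 * Nn))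
      (by positivity) (div_le_one_of_le₀ hXV hN0p.le)
      (div_nonneg (sum_nonneg fun y _ => le_min zero_le_one (by have := he0 y; positivity)) hNn.le)
      (by positivity)
      (by
        intro k hk
        have k1 : 2 * k * ∑ v ∈ X, xv v ≤ ∑ v, (max (xv v) 0) ^ 2 + k ^ 2 * X.card := by
          have k2 : ∑ v ∈ X, (max (xv v) 0) ^ 2 ≤ ∑ v, (max (xv v) 0) ^ 2 :=
            sum_le_sum_of_subset_of_nonneg (subset_univ _) fun _ _ _ => sq_nonneg _
          have k3 : ∑ v ∈ X, 2 * k * xv v ≤ ∑ v ∈ X, ((max (xv v) 0) ^ 2 + k ^ 2) := by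
            refine sum_le_sum fun v _ => ?_
            have := le_max_left (xv v) 0
            nlinarith [sq_nonneg (max (xv v) 0 - k)]
          rw [← mul_sum, sum_add_distrib, sum_const, nsmul_eq_mul] at k3
          linarith
        set Dd := (nru / Nn + 2 * (nlu / Nn)) * (2.262016 * (Rr.card / Nn) + c ^ 2 * (Ll.card / Nn) / 2)
          with hDd
        have hD0 : 0 ≤ Dd := by positivity
        have k4 : ∑ v, (max (xv v) 0) ^ 2 ≤ 0.0847 * Dd * N0 := by
          refine hp.trans ?_
          have := mul_le_mul_of_nonneg_left hw2 (show 0 ≤ 0.0845205 * n by positivity)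
          nlinarith
        have k5 : 2 * k * (0.4954 * (1.504 * (Rr.card / Nn) + c * (Ll.card / Nn)) * (X.card / N0)
            - (1.504 * ((∑ y ∈ Rr, e y) / (N0 * Nn)) + c * ((∑ y ∈ Ll, e y) / (N0 * Nn))))
            = (2 * k * ∑ v ∈ X, xv v) / N0 := by
          rw [hsumx]; field_simp; ring
        rw [k5, div_le_iff₀ hN0p]
        have k6 : (0.0847 * (nru / Nn + 2 * (nlu / Nn))
            * (2.262016 * (Rr.card / Nn) + c ^ 2 * (Ll.card / Nn) / 2) + k ^ 2 * (X.card / N0)) * N0
            = 0.0847 * Dd * N0 + k ^ 2 * X.card := by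
          rw [hDd]; field_simp
        rw [k6]
        linarith)
      (by
        intro hx
        rw [div_le_iff₀ hN0p] at hx
        have : 1.504 * ((∑ y ∈ Rr, e y) / (N0 * Nn)) = (∑ y ∈ Rr, 1.504 * e y / N0) / Nn := by
          rw [← sum_div, ← mul_sum]; field_simp
        rw [this]
        refine div_le_div_of_nonneg_right (sum_le_sum fun y _ => le_min ?_ ?_) hNn.le
        · rw [div_le_one hN0p]
          have := he1 y
          linarith
        · rw [div_le_div_iff₀ hN0p (by positivity)]
          have := he0 y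
          nlinarith)
      (by
        have : Rr.card / Nn * (X.card / N0 - 0.3354) / 0.6646
            = (∑ y ∈ Rr, (X.card - 0.3354 * N0) / (0.6646 * N0)) / Nn := by
          rw [sum_const, nsmul_eq_mul]; field_simp
        rw [this]
        refine div_le_div_of_nonneg_right (sum_le_sum fun y _ => le_min ?_ ?_) hNn.le
        · rw [div_le_one (by positivity)]
          linarith
        · exact div_le_div_of_nonneg_right (he2 y) (by positivity))
      (by
        have k1 : ∑ y ∈ Ll, e y ≤
            (Ll.filter fun y => (X \ H.non (T.dir y) (φ (T.p y))).Nonempty).card * X.card := by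
          rw [card_filter]
          push_cast
          rw [sum_mul]
          refine sum_le_sum fun y _ => ?_
          split_ifs with h
          · rw [one_mul]; exact he1 y
          · rw [not_nonempty_iff_eq_empty] at h
            simp [he, h]
        rw [div_mul_div_comm, mul_comm Nn N0]
        exact div_le_div_of_nonneg_right k1 (by positivity))
      (by
        intro hx
        rw [lt_div_iff₀ hN0p] at hx
        rw [filter_true_of_mem]
        intro y _
        rw [← card_pos]
        have := he2 y
        have : 0 < e y := by linarith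
        simp only [he] at this
        exact_mod_cast this)
    have hmin : min (nM / Nn - 0.4 * (nru / Nn))
        ((0.494 * (nM / Nn) - 0.4 * (nru / Nn)) / 0.3354 * (X.card / N0))
        = min (nM - 0.4 * nru) ((0.494 * nM - 0.4 * nru) / 0.3354 * (X.card / N0)) / Nn := by
      rw [← min_div_div_right hNn.le]
      congr 1 <;> ring
    rw [hmin] at key
    have := mul_le_mul_of_nonneg_right key hNn.le
    refine this.trans (le_of_eq ?_)
    simp only [he]
    field_simp
  · intro i hi θ hθ
    have hp := hpot false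
    have hmem : some i ∈ (insertNone Tst).filter (fun i => i.isNone = false) := by simp [hi]
    have k1 := (single_le_sum (f := fun i => ∑ v : β, (max (∑ s ∈ S.erase t,
      (w i s true * (H.xi true (φ s) v - 0.5046) + w i s false * (H.xi false (φ s) v - 0.5046))) 0) ^ 2)
      (fun _ _ => sum_nonneg fun _ _ => sq_nonneg _) hmem).trans hp
    have k2 : ∑ j ∈ (insertNone Tst).filter (fun i => i.isNone = false),
        ∑ s ∈ S.erase t, (w j s true + w j s false) ^ 2 ≤ B * Tot := by
      have hf : (insertNone Tst).filter (fun i => i.isNone = false)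
          = Tst.map Function.Embedding.some := by
        ext i; cases i <;> simp
      rw [hf, sum_map]
      refine le_trans ?_ (mul_le_mul_of_nonneg_left hTot hB0)
      rw [mul_sum]
      refine sum_le_sum fun j hj => ?_
      rw [← sum_cnt T (Cm j) _ (hCm' j hj), mul_sum]
      refine sum_le_sum fun s _ => ?_
      simp only [Function.Embedding.some_apply, w, cpd_add]
      rw [sq]
      exact mul_le_mul_of_nonneg_right (hB j hj s) (Nat.cast_nonneg _)
    refine le_trans ?_ (k1.trans (mul_le_mul_of_nonneg_left k2 (by positivity)))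
    rw [← nsmul_eq_mul, ← sum_const]
    refine le_trans (sum_le_sum fun v hv => ?_)
      (sum_le_sum_of_subset_of_nonneg (subset_univ _) fun _ _ _ => sq_nonneg _)
    have hv' := (mem_filter.1 hv).2
    simp only [w]
    rw [sum_by_parent T (Cm i) _ (hCm' i hi) fun s b => H.xi b (φ s) v - 0.5046, sum_sub_distrib,
      sum_xi_eq', sum_const, nsmul_eq_mul]
    exact pow_le_pow_left₀ hθ (le_max_of_le_left (by linarith)) 2


end Pool.Agent.MP_6f6f6b_co.B
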