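import Pool.Agent.MP_6f6f6b_co.B.Place

set_option autoImplicit false
set_option linter.unusedVariables false
set_option linter.unusedSectionVars false

open Finset
open scoped Classical

namespace Pool.Agent.MP_6f6f6b_co.B

/-- A partition of the host adapted to a labelled decomposition. -/
structure Parts {α β Λ : Type} [Fintype β] {T : RTree α} (D : LD T Λ) (H : Host β) where
  φ : α → β
  o : β → Λ ⊕ ℕ
  σ : β → β
  S_zone : ∀ s ∈ D.S, o (φ s) = Sum.inr 0
  S_inj : Set.InjOn φ D.S
  S_edge : ∀ s ∈ D.S, s ≠ T.r → T.p s ∈ D.S → H.R (T.dir s) (φ (T.p s)) (φ s)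
  σ_zone : ∀ x ∈ D.U, D.role x = 1 → ∀ a, o a = Sum.inl (D.lab x) → o (σ a) = Sum.inr 3
  σ_inj : ∀ x ∈ D.U, D.role x = 1 → ∀ x' ∈ D.U, D.role x' = 1 → ∀ a a', o a = Sum.inl (D.lab x) →
    o a' = Sum.inl (D.lab x') → σ a = σ a' → a = a'
  pa : ∀ x ∈ D.U, D.role x ≤ 1 → (D.C x).card ≤ (fib o (Sum.inl (D.lab x))).card
  pb : ∀ x ∈ D.U, T.p x ∈ D.U → D.role (T.p x) = 0 → ∀ w b,
    ((fib o (Sum.inl (D.lab (T.p x))) ∩ H.non b w).card : ℝ) ≤ 0.506 * (D.C (T.p x)).card
  pb' : ∀ x ∈ D.U, D.role x = 1 → ∀ w b,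
    (((fib o (Sum.inl (D.lab x))).filter fun a => σ a ∈ H.non b w).card : ℝ) ≤ 0.506 * (D.C x).card
  pc : ∀ x ∈ D.U, D.role x ≤ 1 → T.p x ∉ D.Hv → ∀ w b,
    ((fib o (Sum.inl (D.lab x)) ∩ H.non b w).card : ℝ) + 0.506 * (D.C x).card
      ≤ (fib o (Sum.inl (D.lab x))).card
  pd : ∀ x ∈ D.U, T.p x ∈ D.Hv → ∀ v, o v = Sum.inl (D.lab x) → H.R (T.dir x) (φ (T.p x)) v
  pe : ∀ x ∈ D.U, T.p x ∈ D.S → T.p x ∉ D.Hv →
    (univ.filter fun v => 0.506 * ((D.C x).card : ℝ)
      < ((D.C x).filter fun y => ¬ H.R (T.dir y) (φ (T.p y)) v).card).card + (D.C x).card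
      ≤ (fib o (Sum.inl (D.lab x))).card
  pr : ∀ w w' b b', D.G.card + (fib o (Sum.inr 1) ∩ H.non b w).card
    + (fib o (Sum.inr 1) ∩ H.non b' w').card ≤ (fib o (Sum.inr 1)).card
  pz : 0.99 * ((D.Ro 2).card : ℝ) ≤ (fib o (Sum.inr 2)).card
  pz' : ∀ w b, ((fib o (Sum.inr 2) ∩ H.non b w).card : ℝ) ≤ 0.337 * (D.Ro 2).card
  pz'' : D.mode = true → ∀ L : Finset β, fib o (Sum.inr 2) ⊆ L → L.card = (D.Ro 2).card →
    ∀ P : Finset β, (∀ a ∈ P, ∃ x ∈ D.U, D.role x = 1 ∧ o a = Sum.inl (D.lab x)) →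
      P.card ≤ (L.filter fun w => ∃ a ∈ P, H.R D.b1 a w ∧ H.R (!D.b2) (σ a) w).card

/-- Greedy embedding of the exceptional vertices into a reservoir. -/
theorem greedy {α β : Type} [Fintype β] (T : RTree α) (H : Host β) (G : Finset α) (res : Finset β)
    (ψ : α → β) (hr : T.r ∉ G)
    (hch : ∀ c c', c ∉ G → c' ∉ G → T.p c ∈ G → T.p c = T.p c' → c = c')
    (hres : ∀ w w' b b', G.card + (res ∩ H.non b w).card + (res ∩ H.non b' w').card ≤ res.card) :
    ∃ ψ2 : α → β, (∀ v, v ∉ G → ψ2 v = ψ v) ∧ Set.InjOn ψ2 G ∧ (∀ g ∈ G, ψ2 g ∈ res) ∧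
      ∀ v, v ≠ T.r → (v ∈ G ∨ T.p v ∈ G) → H.R (T.dir v) (ψ2 (T.p v)) (ψ2 v) := by
  have main : ∀ A : Finset α, A ⊆ G → ∃ ψ2 : α → β, (∀ v, v ∉ A → ψ2 v = ψ v) ∧ Set.InjOn ψ2 A ∧
      (∀ g ∈ A, ψ2 g ∈ res) ∧
      (∀ v ∈ A, (T.p v ∉ G ∨ T.p v ∈ A) → H.R (T.dir v) (ψ2 (T.p v)) (ψ2 v)) ∧
      (∀ v, v ∉ G → T.p v ∈ A → H.R (T.dir v) (ψ2 (T.p v)) (ψ2 v)) := by
    intro A
    induction A using Finset.induction_on_max_value T.dep with
    | empty => intro _; exact ⟨ψ, fun _ _ => rfl, by simp, by simp, by simp, by simp⟩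
    | insert a A ha hmax ih =>
      intro hsub
      obtain ⟨χ, h1, h2, h3, h4, h5⟩ := ih ((subset_insert _ _).trans hsub)
      have haG : a ∈ G := hsub (mem_insert_self _ _)
      have har : a ≠ T.r := by rintro rfl; exact hr haG
      obtain ⟨c, hc⟩ : ∃ c, ∀ c', c' ∉ G → T.p c' = a → c' = c := by
        by_cases h : ∃ c, c ∉ G ∧ T.p c = a
        · obtain ⟨c, hc1, hc2⟩ := h
          exact ⟨c, fun c' h1 h2 => hch c' c h1 hc1 (h2 ▸ haG) (h2.trans hc2.symm)⟩
        · exact ⟨a, fun c' h1 h2 => absurd ⟨c', h1, h2⟩ h⟩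
      obtain ⟨y, hy, hy'⟩ : ∃ y ∈ res, y ∉ A.image χ ∪ (res ∩ H.non (T.dir a) (χ (T.p a)))
          ∪ (res ∩ H.non (!T.dir c) (χ c)) := by
        apply exists_mem_notMem_of_card_lt_card
        have e1 := card_union_le (A.image χ ∪ (res ∩ H.non (T.dir a) (χ (T.p a))))
          (res ∩ H.non (!T.dir c) (χ c))
        have e2 := card_union_le (A.image χ) (res ∩ H.non (T.dir a) (χ (T.p a)))
        have e3 : (A.image χ).card ≤ A.card := card_image_le
        have e4 := card_le_card hsub
        rw [card_insert_of_notMem ha] at e4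
        have e5 := hres (χ (T.p a)) (χ c) (T.dir a) (!T.dir c)
        omega
      simp only [mem_union, mem_inter, hy, true_and, not_or, H.mem_non', mem_image, not_exists,
        not_and, not_not] at hy'
      rw [H.mem_non, not_not] at hy'
      have hupd : ∀ v, v ≠ a → Function.update χ a y v = χ v := fun v hv =>
        Function.update_of_ne hv _ _
      have hne : ∀ v ∈ A, v ≠ a := by rintro v hv rfl; exact ha hv
      have hpa : T.p a ≠ a := by
        intro h
        have := T.dep_p a har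
        rw [h] at this
        omega
      refine ⟨Function.update χ a y, ?_, ?_, ?_, ?_, ?_⟩
      · intro v hv
        rw [mem_insert, not_or] at hv
        rw [hupd v hv.1, h1 v hv.2]
      · rw [coe_insert, Set.injOn_insert (by exact_mod_cast ha)]
        constructor
        · intro s hs s' hs' h
          rw [hupd s (hne s hs), hupd s' (hne s' hs')] at h
          exact h2 hs hs' h
        · rintro ⟨s, hs, h⟩
          rw [hupd s (hne s hs), Function.update_self] at h
          exact hy'.1.1 s hs h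
      · intro g hg
        rcases mem_insert.1 hg with rfl | hg'
        · rw [Function.update_self]; exact hy
        · rw [hupd g (hne g hg')]; exact h3 g hg'
      · intro v hv hp
        rcases mem_insert.1 hv with rfl | hv'
        · rw [Function.update_self, hupd _ hpa]; exact hy'.1.2
        · have hvr : v ≠ T.r := by rintro rfl; exact hr (hsub hv)
          have hpv : T.p v ≠ a := by
            intro h
            have e1 := T.dep_p v hvr
            have e2 := hmax v hv'
            rw [h] at e1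
            omega
          rw [hupd v (hne v hv'), hupd _ hpv]
          refine h4 v hv' ?_
          rcases hp with hp | hp
          · exact Or.inl hp
          · exact Or.inr ((mem_insert.1 hp).resolve_left hpv)
      · intro v hv hp
        have hva : v ≠ a := by rintro rfl; exact hv haG
        rw [hupd v hva]
        rcases mem_insert.1 hp with h | h
        · rw [h, Function.update_self, hc v hv h]
          exact hy'.2
        · rw [hupd _ (hne _ h)]
          exact h5 v hv h
  obtain ⟨χ, h1, h2, h3, h4, h5⟩ := main G Subset.rfl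
  refine ⟨χ, h1, h2, h3, fun v hv h => ?_⟩
  by_cases hvG : v ∈ G
  · exact h4 v hvG (by tauto)
  · exact h5 v hvG (h.resolve_left hvG)



/-- The fractional plan. -/
theorem plan {α β : Type} (Nm : Finset α) (kind : α → ℕ) (hk : ∀ x, kind x ≤ 3) (V0 : Finset β)
    (nn : α → Finset β) (nru θ κ : ℝ) (hθ : 0 < θ) (hV0 : 0 < V0.card) (h1 : 0 ≤ nru)
    (hnn : ∀ x, ((nn x).card : ℝ) ≤ 0.3354 * V0.card)
    (hM0 : 0 < (Nm.filter (kind · = 3)).card)
    (hM : 0.995 * (2 * nru) ≤ (Nm.filter (kind · = 3)).card)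
    (hκ : κ * V0.card = θ * Nm.card)
    (hcut : ∀ X ⊆ V0, X.Nonempty → (X.card : ℝ) / V0.card * Nm.card ≤ 0.4 * nru
      + (Nm.filter (kind · = 2)).card
      + min (((Nm.filter (kind · = 3)).card : ℝ) - 0.4 * nru)
          ((0.494 * (Nm.filter (kind · = 3)).card - 0.4 * nru) / 0.3354 * (X.card / V0.card))
      + ∑ y ∈ Nm.filter (kind · = 0), min 1 (((X \ nn y).card : ℝ) / (0.6646 * V0.card))
      + ((Nm.filter (kind · = 1)).filter fun y => (X \ nn y).Nonempty).card) :
    ∃ ω : β → α → ℝ, (∀ v x, 0 ≤ ω v x) ∧ (∀ v ∈ V0, ∑ x ∈ Nm, ω v x = κ) ∧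
      (∀ x ∈ Nm, ∑ v ∈ V0, ω v x = θ) ∧ (∀ v x, kind x ≤ 1 → 0 < ω v x → v ∉ nn x) ∧
      (∀ x ∈ Nm, ∀ Q : Finset β, (Q.card : ℝ) ≤ 0.3354 * V0.card →
        (kind x = 0 → ∑ v ∈ V0 ∩ Q, ω v x ≤ θ * 0.5047) ∧
        (kind x = 3 → ∑ v ∈ V0 ∩ Q, ω v x ≤ θ * 0.494)) := by
  set N0 : ℝ := (V0.card : ℝ) with hN0
  have hN0p : 0 < N0 := by rw [hN0]; exact_mod_cast hV0
  have hN01 : 1 ≤ N0 := by rw [hN0]; exact_mod_cast hV0
  set M : ℝ := ((Nm.filter (kind · = 3)).card : ℝ) with hMdef
  have hMp : 0 < M := by rw [hMdef]; exact_mod_cast hM0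
  set a : ℝ := 0.4 * nru / M with ha
  have ha0 : 0 ≤ a := by positivity
  have ha1 : a ≤ 0.202 := by rw [ha, div_le_iff₀ hMp]; linarith
  set ρ : ℝ := (0.494 - a) / 0.3354 with hρ
  have hρ0 : 0 ≤ ρ := by rw [hρ]; apply div_nonneg <;> linarith
  have hρ1 : 1 - a ≤ ρ := by rw [hρ, le_div_iff₀ (by norm_num)]; linarith
  clear_value ρ a M N0
  let s : α × Bool → ℝ := fun i =>
    if i.2 then (if kind i.1 = 0 then θ else if kind i.1 = 3 then θ * (1 - a) else 0)
    else (if kind i.1 = 0 then 0 else if kind i.1 = 3 then θ * a else θ)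
  let cap : α × Bool → β → ℝ := fun i v =>
    if i.2 then (if kind i.1 = 0 then (if v ∈ nn i.1 then 0 else θ / (0.6646 * N0))
      else if kind i.1 = 3 then θ * ρ / N0 else 0)
    else (if kind i.1 = 0 then 0 else if kind i.1 = 3 then θ * a
      else if kind i.1 = 1 then (if v ∈ nn i.1 then 0 else θ) else θ)
  have hsd : ∀ x, 0.6646 * N0 ≤ (V0 \ nn x).card := by
    intro x
    have k1 := le_card_sdiff (nn x) V0
    have k2 : V0.card ≤ (V0 \ nn x).card + (nn x).card := by omega
    have k3 : N0 ≤ (V0 \ nn x).card + (nn x).card := by rw [hN0]; exact_mod_cast k2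
    have := hnn x
    linarith
  have hs2 : ∀ x, s (x, true) + s (x, false) = θ := by
    intro x
    simp only [s, if_true, Bool.false_eq_true, if_false]
    split_ifs <;> ring
  obtain ⟨f, hf1, hf2, hf3⟩ := flow (Nm ×ˢ (univ : Finset Bool)) V0 s cap κ
    (by
      intro i v
      simp only [cap]
      split_ifs <;> positivity)
    (by
      intro i _
      have : 0 ≤ 1 - a := by linarith
      simp only [s]
      split_ifs <;> positivity)
    (by
      rintro ⟨x, b⟩ _
      cases b
      · simp only [s, cap, Bool.false_eq_true, if_false]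
        split_ifs with k0 k3 k1
        · simp
        · rw [sum_const, nsmul_eq_mul]
          exact le_mul_of_one_le_left (by positivity) (hN0 ▸ hN01)
        · rw [sum_ite_non]
          refine le_mul_of_one_le_left hθ.le ?_
          have : (0 : ℝ) < (V0 \ nn x).card := lt_of_lt_of_le (by positivity) (hsd x)
          have : 0 < (V0 \ nn x).card := by exact_mod_cast this
          exact_mod_cast this
        · rw [sum_const, nsmul_eq_mul]
          exact le_mul_of_one_le_left hθ.le (hN0 ▸ hN01)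
      · simp only [s, cap, if_true]
        split_ifs with k0 k3
        · rw [sum_ite_non, mul_div_assoc', le_div_iff₀ (by positivity), mul_comm]
          exact mul_le_mul_of_nonneg_right (hsd x) hθ.le
        · rw [sum_const, nsmul_eq_mul, ← hN0, mul_div_cancel₀ _ hN0p.ne']
          exact mul_le_mul_of_nonneg_left hρ1 hθ.le
        · simp)
    (by
      rw [sum_product]
      simp only [Fintype.univ_bool, mem_singleton, Bool.true_eq_false, not_false_eq_true, sum_insert,
        sum_singleton, hs2, sum_const, nsmul_eq_mul]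
      rw [← hN0, hκ, mul_comm])
    (by
      intro X hX hXne
      have hXc : (1 : ℝ) ≤ X.card := by exact_mod_cast card_pos.2 hXne
      have e1 : κ * X.card = θ * (X.card / N0 * Nm.card) := by
        have : κ = θ * Nm.card / N0 := by rw [eq_div_iff hN0p.ne']; exact hκ
        rw [this]; field_simp
      rw [e1, sum_product, sum_kind Nm kind hk]
      refine (mul_le_mul_of_nonneg_left (hcut X hX hXne) hθ.le).trans ?_
      have c0 : θ * ∑ y ∈ Nm.filter (kind · = 0), min 1 (((X \ nn y).card : ℝ) / (0.6646 * N0))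
          ≤ ∑ x ∈ Nm.filter (kind · = 0), ∑ b, min (s (x, b)) (∑ v ∈ X, cap (x, b) v) := by
        rw [mul_sum]
        refine sum_le_sum fun x hx => le_of_eq ?_
        have k := (mem_filter.1 hx).2
        simp only [Fintype.univ_bool, mem_singleton, Bool.true_eq_false, not_false_eq_true, sum_insert,
          sum_singleton, s, cap, k, if_true, Bool.false_eq_true, if_false, sum_ite_non, sum_const_zero,
          min_self, add_zero]
        rw [mul_min_of_nonneg _ _ hθ.le]
        congr 1 <;> ring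
      have c1 : θ * (((Nm.filter (kind · = 1)).filter fun y => (X \ nn y).Nonempty).card : ℝ)
          ≤ ∑ x ∈ Nm.filter (kind · = 1), ∑ b, min (s (x, b)) (∑ v ∈ X, cap (x, b) v) := by
        rw [card_filter]
        push_cast
        rw [mul_sum]
        refine sum_le_sum fun x hx => ?_
        have k := (mem_filter.1 hx).2
        simp only [Fintype.univ_bool, mem_singleton, Bool.true_eq_false, not_false_eq_true, sum_insert,
          sum_singleton, s, cap, k, if_true, Bool.false_eq_true, if_false, sum_ite_non, sum_const_zero,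
          min_self, zero_add, one_ne_zero, OfNat.one_ne_ofNat]
        split_ifs with h
        · rw [mul_one]
          refine le_min le_rfl (le_mul_of_one_le_left hθ.le ?_)
          exact_mod_cast card_pos.2 h
        · rw [mul_zero]
          exact le_min hθ.le (mul_nonneg (Nat.cast_nonneg _) hθ.le)
      have c2 : θ * ((Nm.filter (kind · = 2)).card : ℝ)
          ≤ ∑ x ∈ Nm.filter (kind · = 2), ∑ b, min (s (x, b)) (∑ v ∈ X, cap (x, b) v) := by
        rw [mul_comm, ← nsmul_eq_mul, ← sum_const]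
        refine sum_le_sum fun x hx => ?_
        have k := (mem_filter.1 hx).2
        simp only [Fintype.univ_bool, mem_singleton, Bool.true_eq_false, not_false_eq_true, sum_insert,
          sum_singleton, s, cap, k, if_true, Bool.false_eq_true, if_false,
          min_self, zero_add, OfNat.ofNat_ne_zero, OfNat.ofNat_ne_one, Nat.reduceEqDiff, sum_const,
          nsmul_eq_mul, mul_zero]
        exact le_min le_rfl (le_mul_of_one_le_left hθ.le hXc)
      have c3 : θ * (0.4 * nru + min (M - 0.4 * nru) ((0.494 * M - 0.4 * nru) / 0.3354 * (X.card / N0)))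
          ≤ ∑ x ∈ Nm.filter (kind · = 3), ∑ b, min (s (x, b)) (∑ v ∈ X, cap (x, b) v) := by
        have e : θ * (0.4 * nru + min (M - 0.4 * nru) ((0.494 * M - 0.4 * nru) / 0.3354 * (X.card / N0)))
            = M * (min (θ * (1 - a)) (X.card * (θ * ρ / N0)) + θ * a) := by
          rw [mul_add, mul_add, mul_min_of_nonneg _ _ hθ.le, mul_min_of_nonneg _ _ hMp.le, add_comm]
          congr 1
          · congr 1
            · rw [ha]; field_simp
            · rw [hρ, ha]; field_simp
          · rw [ha]; field_simp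
        rw [e, hMdef, ← nsmul_eq_mul, ← sum_const]
        refine sum_le_sum fun x hx => ?_
        have k := (mem_filter.1 hx).2
        simp only [Fintype.univ_bool, mem_singleton, Bool.true_eq_false, not_false_eq_true, sum_insert,
          sum_singleton, s, cap, k, if_true, Bool.false_eq_true, if_false,
          OfNat.ofNat_ne_zero, sum_const, nsmul_eq_mul]
        refine add_le_add le_rfl (le_min le_rfl (le_mul_of_one_le_left (by positivity) hXc))
      linarith)
  refine ⟨fun v x => f (x, true) v + f (x, false) v, fun v x => add_nonneg (hf1 _ _).1 (hf1 _ _).1,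
    ?_, ?_, ?_, ?_⟩
  · intro v hv
    rw [← hf3 v hv, sum_product]
    simp
  · intro x hx
    rw [sum_add_distrib, hf2 _ (by simp [hx]), hf2 _ (by simp [hx]), hs2]
  · intro v x hx hpos hv
    have k1 := (hf1 (x, true) v).2
    have k2 := (hf1 (x, false) v).2
    have h : kind x = 0 ∨ kind x = 1 := by omega
    rcases h with h | h <;> simp [cap, h, hv] at k1 k2 <;> linarith
  · intro x hx Q hQ
    have hQ' : ((V0 ∩ Q).card : ℝ) ≤ 0.3354 * N0 :=
      le_trans (by exact_mod_cast card_le_card inter_subset_right) hQ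
    have hF : ∑ v ∈ V0 ∩ Q, f (x, false) v ≤ s (x, false) := by
      rw [← hf2 _ (by simp [hx])]
      exact sum_le_sum_of_subset_of_nonneg inter_subset_left fun _ _ _ => (hf1 _ _).1
    refine ⟨fun k => ?_, fun k => ?_⟩
    · rw [sum_add_distrib]
      have hT : ∑ v ∈ V0 ∩ Q, f (x, true) v ≤ ∑ v ∈ V0 ∩ Q, θ / (0.6646 * N0) := by
        refine sum_le_sum fun v _ => (hf1 _ _).2.trans ?_
        simp only [cap, k, if_true]
        split_ifs
        · positivity
        · exact le_rfl
      rw [sum_const, nsmul_eq_mul] at hT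
      have h3 : ((V0 ∩ Q).card : ℝ) * (θ / (0.6646 * N0)) ≤ θ * 0.5047 := by
        rw [mul_div_assoc', div_le_iff₀ (by positivity)]
        nlinarith [mul_le_mul_of_nonneg_right hQ' hθ.le, mul_pos hθ hN0p]
      simp only [s, k, if_true, Bool.false_eq_true, if_false] at hF
      linarith
    · rw [sum_add_distrib]
      have hT : ∑ v ∈ V0 ∩ Q, f (x, true) v ≤ ∑ v ∈ V0 ∩ Q, θ * ρ / N0 := by
        refine sum_le_sum fun v _ => (hf1 _ _).2.trans (le_of_eq ?_)
        simp [cap, k]
      rw [sum_const, nsmul_eq_mul] at hT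
      have h3 : ((V0 ∩ Q).card : ℝ) * (θ * ρ / N0) ≤ θ * (0.494 - a) := by
        refine (mul_le_mul_of_nonneg_right hQ' (by positivity)).trans (le_of_eq ?_)
        rw [hρ]; field_simp
      simp only [s, k, if_true, Bool.false_eq_true, if_false, OfNat.ofNat_ne_zero] at hF
      linarith

variable {α β Λ : Type} [Fintype α] [Fintype β] {T : RTree α}

/-- Placement of the separator of a labelled decomposition. -/
theorem stage1 (D : LD T Λ) (H : Host β) (u : β) (hu : ∀ b w, w ≠ u → H.R b u w)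
    (hcard : Fintype.card α = Fintype.card β) (a : ℝ) (ha0 : 0 ≤ a)
    (hS : 1000 * D.S.card ≤ Fintype.card β) (hZ : 0 < (D.Ro 2).card)
    (hbulk : 600 * (D.Ro 2).card ≤ (D.U.filter fun x => D.role x = 0 ∧ T.p x ∈ D.U).card)
    (hmed : ∀ s ∈ D.S, s ∉ D.Hv →
      ((D.U.filter fun x => T.p x = s).card : ℝ) ≤ a * Fintype.card β) :
    ∃ (t : α) (φ : α → β) (kind : α → ℕ) (nru : ℝ), t ∈ D.S ∧ Set.InjOn φ D.S ∧ φ t = u ∧
      (∀ s ∈ D.S, s ≠ T.r → T.p s ∈ D.S → H.R (T.dir s) (φ (T.p s)) (φ s)) ∧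
      (∀ x, kind x ≤ 3) ∧ (∀ x, T.p x ∈ D.Hv → T.p x ≠ t → kind x ≤ 1) ∧
      (∀ x, (∃ c ∈ D.U, T.p c = x) → kind x = 0 ∨ kind x = 3) ∧ (∀ x, T.p x ∉ D.Hv → kind x = 3) ∧
      0 ≤ nru ∧ 0 < ((D.Ro 0).filter (kind · = 3)).card ∧
      0.995 * (2 * nru) ≤ ((D.Ro 0).filter (kind · = 3)).card ∧
      (∀ V0 : Finset β, (Fintype.card β : ℝ) ≤ 1.0011 * V0.card → ∀ X ⊆ V0, X.Nonempty →
        (X.card : ℝ) / V0.card * (D.Ro 0).card ≤ 0.4 * nru + ((D.Ro 0).filter (kind · = 2)).card
          + min ((((D.Ro 0).filter (kind · = 3)).card : ℝ) - 0.4 * nru)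
            ((0.494 * ((D.Ro 0).filter (kind · = 3)).card - 0.4 * nru) / 0.3354 * (X.card / V0.card))
          + ∑ y ∈ (D.Ro 0).filter (kind · = 0),
            min 1 (((X \ H.non (T.dir y) (φ (T.p y))).card : ℝ) / (0.6646 * V0.card))
          + (((D.Ro 0).filter (kind · = 1)).filter
              fun y => (X \ H.non (T.dir y) (φ (T.p y))).Nonempty).card) ∧
      ∀ x ∈ D.U, T.p x ∈ D.S → T.p x ∉ D.Hv → ∀ θ : ℝ, 0 ≤ θ →
        ((univ.filter fun v => 0.5046 * ((D.C x).card : ℝ) + θ
          < ((D.C x).filter fun y => ¬ H.R (T.dir y) (φ (T.p y)) v).card).card : ℝ) * θ ^ 2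
        ≤ 0.0845205 * Fintype.card β * (a * Fintype.card β * Fintype.card β) := by
  set Nm := D.Ro 0 with hNm
  let nl : α → Prop := fun x => ∃ c ∈ D.U, T.p c = x
  obtain ⟨t, ht, htmax⟩ := exists_max_image D.Hv (fun h => (Nm.filter fun x => T.p x = h ∧ nl x).card
    + 2 * (Nm.filter fun x => T.p x = h ∧ ¬ nl x).card) D.Hv_ne
  let kind : α → ℕ := fun x => if T.p x ∈ D.Hv.erase t then (if nl x then 0 else 1)
    else if T.p x = t ∧ ¬ nl x then 2 else 3
  have hk : ∀ x, kind x ≤ 3 := fun x => by simp only [kind]; split_ifs <;> omega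
  have k0 : ∀ x, kind x = 0 ↔ T.p x ∈ D.Hv.erase t ∧ nl x := fun x => by
    simp only [kind]; split_ifs <;> simp [*]
  have k1 : ∀ x, kind x = 1 ↔ T.p x ∈ D.Hv.erase t ∧ ¬ nl x := fun x => by
    simp only [kind]; split_ifs <;> simp [*]
  have k2 : ∀ x, kind x = 2 ↔ T.p x = t ∧ ¬ nl x := fun x => by
    simp only [kind]
    split_ifs with h1 h2 h3
    · simp [h2]
    · simp [(mem_erase.1 h1).1]
    · simp [h3]
    · simpa using h3
  have k3 : ∀ x, T.p x ∉ D.Hv.erase t → ¬ (T.p x = t ∧ ¬ nl x) → kind x = 3 := fun x h1 h2 => by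
    simp only [kind, h1, h2, if_false]
  set Ru := Nm.filter fun x => T.p x = t ∧ nl x with hRu
  set In0 := D.U.filter fun x => D.role x = 0 ∧ T.p x ∈ D.U with hIn0
  have hHU : ∀ x ∈ D.Hv, x ∉ D.U := fun x hx => D.dSU x (D.Hv_sub hx)
  have c1 : In0.card + Ru.card ≤ (Nm.filter (kind · = 3)).card := by
    rw [← card_union_of_disjoint]
    · refine card_le_card fun x hx => ?_
      rcases mem_union.1 hx with h | h
      · obtain ⟨h1, h2, h3⟩ := mem_filter.1 h
        exact mem_filter.2 ⟨D.mem_Ro.2 ⟨h1, h2⟩, k3 x (fun h => hHU _ (mem_of_mem_erase h) h3)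
          fun h => hHU _ ht (h.1 ▸ h3)⟩
      · obtain ⟨h1, h2, h3⟩ := mem_filter.1 h
        exact mem_filter.2 ⟨h1, k3 x (by simp [h2]) fun h => h.2 h3⟩
    · rw [disjoint_left]
      intro x h h'
      exact hHU _ ht ((mem_filter.1 h').2.1 ▸ (mem_filter.1 h).2.2)
  have c2 : (Nm.filter (kind · = 0)).card + Ru.card
      ≤ In0.card + ((D.Ro 1).card + (D.Ro 2).card + (D.Ro 3).card) := by
    rw [← card_union_of_disjoint]
    · refine le_trans (card_le_card_of_surjOn T.p
        (s := In0 ∪ (D.Ro 1 ∪ D.Ro 2 ∪ D.Ro 3)) ?_) ?_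
      · intro x hx
        have hx' : x ∈ D.U ∧ nl x := by
          rcases mem_union.1 (mem_coe.1 hx) with h | h
          · exact ⟨(D.mem_Ro.1 (mem_filter.1 h).1).1, ((k0 x).1 (mem_filter.1 h).2).2⟩
          · exact ⟨(D.mem_Ro.1 (mem_filter.1 h).1).1, (mem_filter.1 h).2.2⟩
        obtain ⟨h1, c, hc, rfl⟩ := hx'
        refine ⟨c, ?_, rfl⟩
        have := D.role_le c
        simp only [coe_union, Set.mem_union, mem_coe, hIn0, mem_filter, D.mem_Ro, hc, h1, true_and,
          and_true]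
        omega
      · refine (card_union_le _ _).trans (Nat.add_le_add_left ?_ _)
        exact (card_union_le _ _).trans (Nat.add_le_add_right (card_union_le _ _) _)
    · rw [disjoint_left]
      intro x h h'
      exact (mem_erase.1 ((k0 x).1 (mem_filter.1 h).2).1).1 (mem_filter.1 h').2.1
  have c3 := D.card_X_le
  have c4 := D.card_Y_le
  have hM : 0.995 * (((Nm.filter (kind · = 0)).card : ℝ) + 2 * Ru.card)
      ≤ (Nm.filter (kind · = 3)).card := by
    have e : 995 * ((Nm.filter (kind · = 0)).card + 2 * Ru.card)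
      ≤ 1000 * (Nm.filter (kind · = 3)).card := by omega
    have e' : (995 : ℝ) * ((Nm.filter (kind · = 0)).card + 2 * Ru.card)
      ≤ 1000 * (Nm.filter (kind · = 3)).card := by exact_mod_cast e
    linarith
  have hM0 : 0 < (Nm.filter (kind · = 3)).card := by omega
  have hsum := sum_kind Nm kind hk fun _ => 1
  simp only [sum_const, nsmul_eq_mul, mul_one] at hsum
  have hNm0 : (0 : ℝ) < Nm.card := by
    exact_mod_cast lt_of_lt_of_le hM0 (card_le_card (filter_subset _ _))
  set Tst := (D.U.filter fun x => T.p x ∈ D.S ∧ T.p x ∉ D.Hv).image D.lab with hTst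
  have hCm : ∀ i ∈ Tst, ∀ y ∈ D.U.filter (D.lab · = i), T.p y ∈ D.S ∧ T.p y ∉ D.Hv := by
    intro i hi y hy
    obtain ⟨x, hx, rfl⟩ := mem_image.1 hi
    obtain ⟨h1, h2, h3⟩ := mem_filter.1 hx
    obtain ⟨h4, h5⟩ := mem_filter.1 hy
    exact ⟨D.l_med x h1 y h4 h5.symm h2, fun h => h3 (D.l_hub y h4 x h1 h5 h ▸ h)⟩
  obtain ⟨φ, hinj, hφt, hedge, hcut, hbad⟩ := hub_place T H u hu D.S D.Hv D.Hv_sub t ht hS
    (Nm.filter (kind · = 0)) (Nm.filter (kind · = 1))
    (fun y hy => ((k0 y).1 (mem_filter.1 hy).2).1) (fun y hy => ((k1 y).1 (mem_filter.1 hy).2).1)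
    Ru.card (Nm.filter (kind · = 2)).card (Nm.filter (kind · = 3)).card Nm.card
    (Nat.cast_nonneg _) (Nat.cast_nonneg _) hNm0 hsum.symm hM
    (by
      intro h
      have e2 : Nm.filter (kind · = 2) = Nm.filter fun x => T.p x = t ∧ ¬ nl x :=
        filter_congr fun x _ => k2 x
      rw [e2]
      have e : ((Nm.filter (kind · = 0)).filter fun y => T.p y = h).card
          + 2 * ((Nm.filter (kind · = 1)).filter fun y => T.p y = h).card
          ≤ Ru.card + 2 * (Nm.filter fun x => T.p x = t ∧ ¬ nl x).card := by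
        by_cases hh : h ∈ D.Hv
        · refine le_trans (Nat.add_le_add (card_le_card ?_) (Nat.mul_le_mul_left 2 (card_le_card ?_)))
            (htmax h hh)
          · intro y hy
            obtain ⟨h1, h2⟩ := mem_filter.1 hy
            exact mem_filter.2 ⟨(mem_filter.1 h1).1, h2, ((k0 y).1 (mem_filter.1 h1).2).2⟩
          · intro y hy
            obtain ⟨h1, h2⟩ := mem_filter.1 hy
            exact mem_filter.2 ⟨(mem_filter.1 h1).1, h2, ((k1 y).1 (mem_filter.1 h1).2).2⟩
        · rw [filter_eq_empty_iff.2 fun y hy (h' : T.p y = h) =>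
            hh (h' ▸ mem_of_mem_erase ((k0 y).1 (mem_filter.1 hy).2).1),
            filter_eq_empty_iff.2 fun y hy (h' : T.p y = h) =>
            hh (h' ▸ mem_of_mem_erase ((k1 y).1 (mem_filter.1 hy).2).1)]
          simp
      exact_mod_cast e)
    Tst (fun i => D.U.filter (D.lab · = i)) hCm (a * Fintype.card β) (Fintype.card β)
    (mul_nonneg ha0 (Nat.cast_nonneg _))
    (by
      intro i hi s
      rcases ((D.U.filter (D.lab · = i)).filter fun y => T.p y = s).eq_empty_or_nonempty with h | ⟨y, hy⟩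
      · rw [h, card_empty, Nat.cast_zero]
        exact mul_nonneg ha0 (Nat.cast_nonneg _)
      · obtain ⟨h1, rfl⟩ := mem_filter.1 hy
        obtain ⟨h2, h3⟩ := hCm i hi y h1
        refine le_trans ?_ (hmed _ h2 h3)
        exact_mod_cast card_le_card (filter_subset_filter _ (filter_subset _ _)))
    (by
      have e1 : ∑ i ∈ Tst, (D.U.filter (D.lab · = i)).card ≤ Fintype.card β := by
        refine le_trans (sum_le_sum_of_subset (image_subset_image (filter_subset _ _))) ?_
        rw [← card_eq_sum_card_image, ← hcard]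
        exact card_le_univ _
      exact_mod_cast e1)
  refine ⟨t, φ, kind, Ru.card, D.Hv_sub ht, hinj, hφt, hedge, hk, ?_, ?_, ?_, Nat.cast_nonneg _, hM0,
    ?_, hcut, ?_⟩
  · intro x h1 h2
    simp only [kind, mem_erase.2 ⟨h2, h1⟩, if_true]
    split_ifs <;> omega
  · intro x hx
    by_cases h : T.p x ∈ D.Hv.erase t
    · exact Or.inl ((k0 x).2 ⟨h, hx⟩)
    · exact Or.inr (k3 x h fun h' => h'.2 hx)
  · intro x hx
    exact k3 x (fun h => hx (mem_of_mem_erase h)) fun h => hx (h.1 ▸ ht)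
  · have : (0 : ℝ) ≤ (Nm.filter (kind · = 0)).card := Nat.cast_nonneg _
    linarith
  · intro x hx h1 h2 θ hθ
    exact hbad (D.lab x) (mem_image_of_mem _ (mem_filter.2 ⟨hx, h1, h2⟩)) θ hθ


end Pool.Agent.MP_6f6f6b_co.B
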